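import Mathlib

/-!
# PROP-SharedObj(n, n - 2): the condition checked by the algorithm

Everything here is about a matrix `v` of natural numbers (`n` agents, `m` objects).
-/

namespace Pool.Agent.FairDivA

variable {n m : ℕ}

/-- the value of the set `R` of objects for the agent `i` -/
def sv (v : Fin n → Fin m → ℕ) (i : Fin n) (R : Finset (Fin m)) : ℕ := ∑ o ∈ R, v i o

/-- the value of all objects for the agent `i` -/
def tv (v : Fin n → Fin m → ℕ) (i : Fin n) : ℕ := ∑ o, v i o

/-- some agent accepts the set `R` -/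
def SomeAcc (v : Fin n → Fin m → ℕ) (R : Finset (Fin m)) : Prop :=
  ∃ i, tv v i ≤ n * sv v i R

/-- the set of the first `j` objects -/
def pre (m j : ℕ) : Finset (Fin m) := Finset.univ.filter fun o => o.val < j

/-- Trees of agents with edges labelled by objects, built by adding leaves: `L` are integral weights
(zero outside the tree), `Q` is the set of the labels, `W` the sum of the weights of the edges. -/
inductive Chain (v : Fin n → Fin m → ℕ) (T : Finset (Fin m)) :
    (Fin n → ℕ) → Finset (Fin m) → ℕ → Prop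
  | base (r : Fin n) : Chain v T (fun q => if q = r then 1 else 0) ∅ 0
  | step {L : Fin n → ℕ} {Q : Finset (Fin m)} {W : ℕ} (h : Chain v T L Q W) {X : Fin m}
      (hT : X ∈ T) (hQ : X ∉ Q) {p i : Fin n} (hp : L p ≠ 0) (hi : L i = 0)
      (hvi : v i X ≠ 0) (hvp : v p X ≠ 0) :
      Chain v T (fun q => if q = i then L p * v p X else L q * v i X) (insert X Q)
        (W * v i X + L p * v p X * v i X)

/-- The chain `L, Q, W` is bad for `T` and `k`: with suitable disjoint sets `S i` of at most `k - 1`
objects of `T \ Q` the weighted demand is not larger than the weighted supply. -/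
def Bad (v : Fin n → Fin m → ℕ) (T : Finset (Fin m)) (k : ℕ) (L : Fin n → ℕ)
    (Q : Finset (Fin m)) (W : ℕ) : Prop :=
  ∃ S : Fin n → Finset (Fin m), (∀ i j, i ≠ j → Disjoint (S i) (S j)) ∧ (∀ i, S i ⊆ T \ Q) ∧
    (∀ i, (S i).card ≤ k - 1) ∧
    ∑ i, L i * tv v i ≤
      n * (W + ∑ o ∈ Finset.univ \ T, Finset.univ.sup (fun i => L i * v i o) +
        ∑ i, L i * sv v i (S i))

/-- there is a bad chain with at most `n - 2` labels -/
def BadChain (v : Fin n → Fin m → ℕ) (T : Finset (Fin m)) (k : ℕ) : Prop :=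
  ∃ L Q W, Chain v T L Q W ∧ Q.card ≤ n - 2 ∧ Bad v T k L Q W

/-- `j` is the length of the least accepted initial segment -/
def IsFirst (v : Fin n → Fin m → ℕ) (j : ℕ) : Prop :=
  SomeAcc v (pre m j) ∧ ∀ j' < j, ¬ SomeAcc v (pre m j')

/-- `T` is the set computed from the least accepted initial segment of length `j` -/
def IsT (v : Fin n → Fin m → ℕ) (j : ℕ) (T : Finset (Fin m)) : Prop :=
  ∀ o : Fin m, o ∈ T ↔
    ((o.val + 1 < j ∧ ¬ SomeAcc v ((pre m j).erase o)) ∨ o.val + 1 = j ∨
      (j ≤ o.val ∧ SomeAcc v (insert o (pre m (j - 1)))))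

/-- the answer of the algorithm -/
def Answer (v : Fin n → Fin m → ℕ) : Prop :=
  ∃ j T, IsFirst v j ∧ IsT v j T ∧
    (j = 0 ∨ (¬ ∃ k, T.card + 1 = n * k) ∨ ∃ k, T.card + 1 = n * k ∧ BadChain v T k)

end Pool.Agent.FairDivA
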