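import Pool.Agent.Lib_MP_42f051_alg.Alg
import Pool.Agent.Lib_MP_42f051_alg.Chain
import Pool.Agent.Lib_MP_42f051_lc.Defs

/-!
# PROP-SharedObj(n, n - 2): acceptance, the first accepted segment and the set `T` on the level of lists
-/

namespace Pool.Agent.FairDivA

open Pool.Agent.PartSep.TM Pool.Agent.FairDiv Finset

/-- the list `y` of natural numbers as a list of binary numbers -/
abbrev yB (y : List ℕ) : List BN := y.map BN.mk

/-- the set of the elements of a list of numbers -/
def toF (m : ℕ) (R : List ℕ) : Finset (Fin m) := Finset.univ.filter fun o => o.val ∈ R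

theorem mem_toF {m : ℕ} {R : List ℕ} {o : Fin m} : o ∈ toF m R ↔ o.val ∈ R := by
  simp [toF]

theorem mB_yB (n : ℕ) (y : List ℕ) : mB n (yB y) = y.length / n := by
  simp [mB, yB]

theorem gv_yB (n : ℕ) (y : List ℕ) (i o : ℕ) :
    (gv n (yB y) i o).val = y.getD (i * (y.length / n) + o) 0 := by
  unfold gv
  rw [mB_yB, yB, List.getElem?_map, List.getD_eq_getElem?_getD]
  cases y[i * (y.length / n) + o]? <;> rfl

theorem gv_mat (n : ℕ) (y : List ℕ) (i : Fin n) (o : Fin (y.length / n)) :
    (gv n (yB y) i.val o.val).val = mat n y i o := gv_yB n y _ _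

theorem map_toF {m : ℕ} {R : List ℕ} (hR : ∀ o ∈ R, o < m) :
    (toF m R).map Fin.valEmbedding = R.toFinset := by
  ext a
  simp only [Finset.mem_map, mem_toF, Fin.valEmbedding_apply, List.mem_toFinset]
  constructor
  · rintro ⟨o, ho, rfl⟩
    exact ho
  · intro ha
    exact ⟨⟨a, hR a ha⟩, ha, rfl⟩

theorem sum_toF {m : ℕ} {R : List ℕ} (hn : R.Nodup) (hR : ∀ o ∈ R, o < m) (f : ℕ → ℕ) :
    ∑ o ∈ toF m R, f o.val = (R.map f).sum := by
  rw [← List.sum_toFinset f hn, ← map_toF hR, Finset.sum_map]
  rfl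

theorem card_toF {m : ℕ} {R : List ℕ} (hn : R.Nodup) (hR : ∀ o ∈ R, o < m) :
    (toF m R).card = R.length := by
  rw [← Finset.card_map Fin.valEmbedding, map_toF hR, List.toFinset_card_of_nodup hn]

theorem svB_eq (n : ℕ) (y : List ℕ) (i : Fin n) {R : List ℕ} (hn : R.Nodup)
    (hR : ∀ o ∈ R, o < y.length / n) :
    (svB n (yB y) i.val R).val = sv (mat n y) i (toF _ R) := by
  unfold svB sv
  rw [← sum_toF hn hR]
  change (∑ o ∈ toF _ R, (gv n (yB y) i.val o.val).val) = ∑ o ∈ toF _ R, mat n y i o
  exact Finset.sum_congr rfl fun o _ => gv_mat n y i o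

theorem toF_range (m j : ℕ) : toF m (List.range j) = pre m j := by
  ext o
  simp [mem_toF, pre]

theorem pre_self (m : ℕ) : pre m m = Finset.univ := by
  ext o
  simp [pre]

theorem tvB_eq (n : ℕ) (y : List ℕ) (i : Fin n) :
    (tvB n (yB y) i.val).val = tv (mat n y) i := by
  unfold tvB
  rw [mB_yB, svB_eq n y i List.nodup_range (fun o ho => List.mem_range.mp ho), toF_range, pre_self]
  rfl

theorem accB_iff (n : ℕ) (y : List ℕ) {R : List ℕ} (hn : R.Nodup)
    (hR : ∀ o ∈ R, o < y.length / n) :
    accB n (yB y) R = true ↔ SomeAcc (mat n y) (toF _ R) := by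
  unfold accB SomeAcc
  rw [List.any_eq_true]
  constructor
  · rintro ⟨i, hi, h⟩
    have hi' := List.mem_range.mp hi
    have h' := of_decide_eq_true h
    refine ⟨⟨i, hi'⟩, ?_⟩
    rw [← tvB_eq n y ⟨i, hi'⟩, ← svB_eq n y ⟨i, hi'⟩ hn hR]
    exact h'
  · rintro ⟨i, h⟩
    refine ⟨i.val, List.mem_range.mpr i.isLt, ?_⟩
    rw [← tvB_eq n y i, ← svB_eq n y i hn hR] at h
    exact decide_eq_true h

theorem accB_range (n : ℕ) (y : List ℕ) {j : ℕ} (hj : j ≤ y.length / n) :
    accB n (yB y) (List.range j) = true ↔ SomeAcc (mat n y) (pre _ j) := by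
  rw [accB_iff n y List.nodup_range (fun o ho => (List.mem_range.mp ho).trans_le hj), toF_range]

theorem SomeAcc.mono {n m : ℕ} {v : Fin n → Fin m → ℕ} {R R' : Finset (Fin m)} (h : R ⊆ R')
    (hR : SomeAcc v R) : SomeAcc v R' := by
  obtain ⟨i, hi⟩ := hR
  exact ⟨i, hi.trans (Nat.mul_le_mul_left _ (Finset.sum_le_sum_of_subset h))⟩

theorem pre_mono (m : ℕ) {j j' : ℕ} (h : j ≤ j') : pre m j ⊆ pre m j' := by
  intro o ho
  simp only [pre, Finset.mem_filter, Finset.mem_univ, true_and] at ho ⊢
  omega

theorem someAcc_univ {n m : ℕ} (hn : 1 ≤ n) (v : Fin n → Fin m → ℕ) :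
    SomeAcc v Finset.univ :=
  ⟨⟨0, hn⟩, Nat.le_mul_of_pos_left _ (by omega)⟩

/-- the number of the false values of a monotone predicate -/
theorem filter_mono_length (m : ℕ) (p : ℕ → Bool) (P : ℕ → Prop)
    (hp : ∀ j ≤ m, p j = true ↔ P j) (hm : P m) (hmono : ∀ j j', j ≤ j' → P j → P j') :
    P ((List.range (m + 1)).filter fun j => !p j).length ∧
      (∀ j' < ((List.range (m + 1)).filter fun j => !p j).length, ¬ P j') ∧
      ((List.range (m + 1)).filter fun j => !p j).length ≤ m := by
  classical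
  have hex : ∃ j, P j := ⟨m, hm⟩
  set j0 := Nat.find hex with hj0
  have h0 : P j0 := Nat.find_spec hex
  have h1 : ∀ j < j0, ¬ P j := fun j hj => Nat.find_min hex hj
  have h2 : j0 ≤ m := Nat.find_min' hex hm
  have key : ((List.range (m + 1)).filter fun j => !p j).length = j0 := by
    have e : (((List.range (m + 1)).filter fun j => !p j).toFinset) = Finset.range j0 := by
      ext a
      simp only [List.mem_toFinset, List.mem_filter, List.mem_range, Finset.mem_range,
        Bool.not_eq_true']
      constructor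
      · rintro ⟨ha, hpa⟩
        by_contra hlt
        have : P a := hmono _ _ (not_lt.mp hlt) h0
        rw [← hp a (by omega)] at this
        rw [this] at hpa
        exact absurd hpa (by simp)
      · intro ha
        refine ⟨by omega, ?_⟩
        have := h1 a ha
        rw [← hp a (by omega)] at this
        simpa using this
    rw [← List.toFinset_card_of_nodup (List.nodup_range.filter _), e, Finset.card_range]
  rw [key]
  exact ⟨h0, h1, h2⟩

theorem jB_spec {n : ℕ} (hn : 1 ≤ n) (y : List ℕ) :
    IsFirst (mat n y) (jB n (yB y)) ∧ jB n (yB y) ≤ y.length / n := by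
  have h := filter_mono_length (y.length / n) (fun j => accB n (yB y) (List.range j))
    (fun j => SomeAcc (mat n y) (pre _ j)) (fun j hj => accB_range n y hj)
    (by
      show SomeAcc (mat n y) (pre _ _)
      rw [pre_self]
      exact someAcc_univ hn _)
    (fun j j' hjj h => h.mono (pre_mono _ hjj))
  unfold jB
  rw [mB_yB]
  exact ⟨⟨h.1, h.2.1⟩, h.2.2⟩

theorem isFirst_jB {n : ℕ} (hn : 1 ≤ n) (y : List ℕ) : IsFirst (mat n y) (jB n (yB y)) :=
  (jB_spec hn y).1

theorem jB_le {n : ℕ} (hn : 1 ≤ n) (y : List ℕ) : jB n (yB y) ≤ y.length / n := (jB_spec hn y).2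

theorem isFirst_unique {n m : ℕ} {v : Fin n → Fin m → ℕ} {j j' : ℕ} (h : IsFirst v j)
    (h' : IsFirst v j') : j = j' := by
  rcases lt_trichotomy j j' with hlt | heq | hgt
  · exact absurd h.1 (h'.2 j hlt)
  · exact heq
  · exact absurd h'.1 (h.2 j' hgt)

theorem nodup_TB (n : ℕ) (y : List BN) : (TB n y).Nodup := List.nodup_range.filter _

theorem TB_lt {n : ℕ} {y : List ℕ} {o : ℕ} (h : o ∈ TB n (yB y)) : o < y.length / n := by
  have := (List.mem_filter.mp h).1
  rw [mB_yB] at this
  exact List.mem_range.mp this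

theorem mem_TB {n : ℕ} {y : List ℕ} {o : ℕ} (ho : o < y.length / n) :
    o ∈ TB n (yB y) ↔ inT n (yB y) o = true := by
  unfold TB
  rw [List.mem_filter, mB_yB, List.mem_range]
  exact ⟨fun h => h.2, fun h => ⟨ho, h⟩⟩

theorem inT_iff {n : ℕ} (hn : 1 ≤ n) (y : List ℕ) (o : Fin (y.length / n)) :
    inT n (yB y) o.val = true ↔
      ((o.val + 1 < jB n (yB y) ∧
        ¬ SomeAcc (mat n y) ((pre _ (jB n (yB y))).erase o)) ∨ o.val + 1 = jB n (yB y) ∨
      (jB n (yB y) ≤ o.val ∧ SomeAcc (mat n y) (insert o (pre _ (jB n (yB y) - 1))))) := by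
  have hj := jB_le hn y
  set j := jB n (yB y) with hjdef
  unfold inT
  rw [← hjdef]
  by_cases h1 : o.val + 1 < j
  · have e : toF (y.length / n) ((List.range j).filter fun q => !decide (q = o.val)) =
        (pre _ j).erase o := by
      ext q
      simp only [mem_toF, List.mem_filter, List.mem_range, pre, Finset.mem_erase,
        Finset.mem_filter, Finset.mem_univ, true_and, Bool.not_eq_true', decide_eq_false_iff_not,
        Fin.ext_iff, ne_eq]
      tauto
    have h2 : accB n (yB y) ((List.range j).filter fun q => !decide (q = o.val)) = true ↔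
        SomeAcc (mat n y) ((pre _ j).erase o) := by
      rw [← e]
      refine accB_iff n y (List.nodup_range.filter _) ?_
      intro q hq
      have := List.mem_range.mp (List.mem_filter.mp hq).1
      omega
    rw [if_pos (decide_eq_true h1)]
    have h3 : ¬ (o.val + 1 = j) := by omega
    have h4 : ¬ (j ≤ o.val) := by omega
    simp only [h1, h3, h4, true_and, false_and, or_false]
    rw [← h2]
    simp
  · rw [if_neg (by simpa using h1)]
    by_cases h3 : o.val + 1 = j
    · rw [if_pos (decide_eq_true h3)]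
      simp [h3]
    · have h4 : j ≤ o.val := by omega
      rw [if_neg (by simpa using h3)]
      have e : toF (y.length / n) (o.val :: List.range (j - 1)) = insert o (pre _ (j - 1)) := by
        ext q
        simp [mem_toF, pre, Fin.ext_iff]
      simp only [h1, h3, h4, true_and, false_and, false_or]
      rw [← e]
      refine accB_iff n y ?_ ?_
      · rw [List.nodup_cons]
        exact ⟨fun h => by have := List.mem_range.mp h; omega, List.nodup_range⟩
      · intro q hq
        rcases List.mem_cons.mp hq with rfl | hq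
        · exact o.isLt
        · have := List.mem_range.mp hq
          omega

theorem isT_TB {n : ℕ} (hn : 1 ≤ n) (y : List ℕ) :
    IsT (mat n y) (jB n (yB y)) (toF _ (TB n (yB y))) := by
  intro o
  rw [mem_toF, mem_TB o.isLt]
  exact inT_iff hn y o

theorem isT_unique {n m : ℕ} {v : Fin n → Fin m → ℕ} {j : ℕ} {T T' : Finset (Fin m)}
    (h : IsT v j T) (h' : IsT v j T') : T = T' := by
  ext o
  rw [h o, h' o]

theorem card_TB {n : ℕ} (y : List ℕ) :
    (toF (y.length / n) (TB n (yB y))).card = (TB n (yB y)).length :=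
  card_toF (nodup_TB _ _) fun _ ho => TB_lt ho

/-- the answer of the algorithm in terms of the computed `j`, `T` and `k` -/
theorem answer_iff_comp {n : ℕ} (hn : 1 ≤ n) (y : List ℕ) :
    Answer (mat n y) ↔ jB n (yB y) = 0 ∨ n * kB n (yB y) ≠ (TB n (yB y)).length + 1 ∨
      BadChain (mat n y) (toF _ (TB n (yB y))) (kB n (yB y)) := by
  have hk : ∀ k, (TB n (yB y)).length + 1 = n * k → k = kB n (yB y) := by
    intro k hk
    unfold kB
    rw [hk, Nat.mul_div_cancel_left _ (by omega)]
  have hj := isFirst_jB hn y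
  have hT := isT_TB hn y
  constructor
  · rintro ⟨j, T, h1, h2, h3⟩
    obtain rfl := isFirst_unique h1 hj
    obtain rfl := isT_unique h2 hT
    rcases h3 with h3 | h3 | ⟨k, h3, h4⟩
    · exact Or.inl h3
    · refine Or.inr (Or.inl fun h => h3 ⟨kB n (yB y), ?_⟩)
      rw [card_TB, h]
    · rw [card_TB] at h3
      obtain rfl := hk k h3
      exact Or.inr (Or.inr h4)
  · intro h
    refine ⟨jB n (yB y), toF _ (TB n (yB y)), hj, hT, ?_⟩
    rcases h with h | h | h
    · exact Or.inl h
    · refine Or.inr (Or.inl ?_)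
      rintro ⟨k, h3⟩
      rw [card_TB] at h3
      obtain rfl := hk k h3
      exact h h3.symm
    · by_cases h3 : n * kB n (yB y) = (TB n (yB y)).length + 1
      · refine Or.inr (Or.inr ⟨kB n (yB y), ?_, h⟩)
        rw [card_TB, h3]
      · refine Or.inr (Or.inl ?_)
        rintro ⟨k, h4⟩
        rw [card_TB] at h4
        obtain rfl := hk k h4
        exact h3 h4.symm

end Pool.Agent.FairDivA
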