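import Pool.Agent.Lib_MP_033923_lc.BinNat

/-!
# PROP-SharedObj(n, n - 2): the algorithm on lists of binary numbers

The numbers `n` (agents) is fixed. An instance is a list `y` of binary numbers, the matrix row by row;
the number of objects is `y.length / n`.
-/

namespace Pool.Agent.FairDivA

open Pool.Agent.PartSep.TM

/-- the number of objects -/
def mB (n : ℕ) (y : List BN) : ℕ := y.length / n

/-- the value of the object `o` for the agent `i` -/
def gv (n : ℕ) (y : List BN) (i o : ℕ) : BN := (y[i * mB n y + o]?).getD ⟨0⟩

/-- the value of a list of objects for the agent `i` -/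
def svB (n : ℕ) (y : List BN) (i : ℕ) (R : List ℕ) : BN := ⟨(R.map fun o => (gv n y i o).val).sum⟩

/-- the value of all objects for the agent `i` -/
def tvB (n : ℕ) (y : List BN) (i : ℕ) : BN := svB n y i (List.range (mB n y))

/-- some agent accepts `R` -/
def accB (n : ℕ) (y : List BN) (R : List ℕ) : Bool :=
  (List.range n).any fun i => decide ((tvB n y i).val ≤ n * (svB n y i R).val)

/-- the length of the least accepted initial segment -/
def jB (n : ℕ) (y : List BN) : ℕ :=
  ((List.range (mB n y + 1)).filter fun j => !accB n y (List.range j)).length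

/-- the membership in `T` -/
def inT (n : ℕ) (y : List BN) (o : ℕ) : Bool :=
  if decide (o + 1 < jB n y) then !accB n y ((List.range (jB n y)).filter fun q => !decide (q = o))
  else if decide (o + 1 = jB n y) then true else accB n y (o :: List.range (jB n y - 1))

/-- the set `T` -/
def TB (n : ℕ) (y : List BN) : List ℕ := (List.range (mB n y)).filter (inT n y)

/-- the number `k` -/
def kB (n : ℕ) (y : List BN) : ℕ := ((TB n y).length + 1) / n

/-- Chains: weights of the agents, labels, sum of the weights of the edges. -/
abbrev Cand : Type := List BN × List ℕ × BN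

/-- the weight of the agent `q` -/
def gL (L : List BN) (q : ℕ) : BN := (L[q]?).getD ⟨0⟩

/-- the chains with one agent -/
def cands0 (n : ℕ) : List Cand :=
  (List.range n).map fun r => ((List.range n).map fun q => if q = r then ⟨1⟩ else ⟨0⟩, [], ⟨0⟩)

/-- the new weights -/
def newL (n : ℕ) (y : List BN) (L : List BN) (i p X : ℕ) : List BN :=
  (List.range n).map fun q => if decide (q = i) then ⟨(gL L p).val * (gv n y p X).val⟩
    else ⟨(gL L q).val * (gv n y i X).val⟩

/-- the condition for adding the leaf `i` to the agent `p` with the label `X` -/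
def okB (n : ℕ) (y : List BN) (c : Cand) (i p X : ℕ) : Bool :=
  (!(c.2.1.any fun q => decide (q = X))) && (!decide ((gL c.1 p).val = 0)) &&
    decide ((gL c.1 i).val = 0) && (!decide ((gv n y i X).val = 0)) &&
    (!decide ((gv n y p X).val = 0))

/-- the chain with the new leaf `i` at the agent `p` with the label `X` -/
def stepB (n : ℕ) (y : List BN) (c : Cand) (i p X : ℕ) : Cand :=
  (newL n y c.1 i p X, X :: c.2.1,
    ⟨c.2.2.val * (gv n y i X).val + (gL c.1 p).val * (gv n y p X).val * (gv n y i X).val⟩)

/-- the chains with one more leaf -/
def extB (n : ℕ) (y : List BN) (T : List ℕ) (c : Cand) : List Cand :=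
  T.flatMap fun X => (List.range n).flatMap fun p => (List.range n).flatMap fun i =>
    if okB n y c i p X then [stepB n y c i p X] else []

/-- the chains with `j` labels -/
def candsB (n : ℕ) (y : List BN) : ℕ → List Cand
  | 0 => cands0 n
  | j + 1 => (candsB n y j).flatMap (extB n y (TB n y))

/-- the greatest weighted value of the object `o` -/
def mxB (n : ℕ) (y : List BN) (L : List BN) (o : ℕ) : BN :=
  (List.range n).foldl (fun s i => if decide (s.val ≤ (gL L i).val * (gv n y i o).val) then
    ⟨(gL L i).val * (gv n y i o).val⟩ else s) ⟨0⟩

/-- the rows of weights of the objects of `T` without the labels -/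
def rowsB (n : ℕ) (y : List BN) (c : Cand) : List (List BN) :=
  ((TB n y).filter fun o => !(c.2.1.any fun q => decide (q = o))).map fun o =>
    (List.range n).map fun i => ⟨(gL c.1 i).val * (gv n y i o).val⟩

/-- the weighted demand -/
def demB (n : ℕ) (y : List BN) (c : Cand) : BN :=
  ⟨((List.range n).map fun i => (gL c.1 i).val * (tvB n y i).val).sum⟩

/-- the weighted supply without the objects of `T` held as whole objects -/
def supB (n : ℕ) (y : List BN) (c : Cand) : BN :=
  ⟨c.2.2.val + (((List.range (mB n y)).filter fun o => !inT n y o).map fun o =>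
    (mxB n y c.1 o).val).sum⟩

/-- the chain is bad; `dp` is the dynamic program -/
def badB (dp : ℕ → List (List BN) → BN) (n : ℕ) (y : List BN) (c : Cand) : Bool :=
  decide ((demB n y c).val ≤
    n * ((supB n y c).val + (dp (kB n y - 1) (rowsB n y c)).val))

/-- the algorithm; `dp` is the dynamic program -/
def algo (dp : ℕ → List (List BN) → BN) (n : ℕ) (y : List BN) : Bool :=
  decide (jB n y = 0) || (!decide (n * kB n y = (TB n y).length + 1)) ||
    (List.range (n - 1)).any fun j => (candsB n y j).any (badB dp n y)

end Pool.Agent.FairDivA
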