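import Pool.Agent.Lib_MP_42f051_alg.Alg
import Pool.Agent.Lib_MP_42f051_alg.Chain

/-!
# The lists `candsB` are the codes of the chains
-/

namespace Pool.Agent.FairDivA

open Pool.Agent.PartSep.TM

variable {n m : ℕ}

/-- `c` is the code of the chain `L, Q, W` -/
structure Code (c : Cand) (L : Fin n → ℕ) (Q : Finset (Fin m)) (W : ℕ) : Prop where
  hL : ∀ i : Fin n, (gL c.1 i.val).val = L i
  nodup : c.2.1.Nodup
  lt : ∀ q ∈ c.2.1, q < m
  hQ : ∀ o : Fin m, o ∈ Q ↔ o.val ∈ c.2.1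
  hW : c.2.2.val = W

theorem gL_map (f : ℕ → BN) {i : ℕ} (hi : i < n) : gL ((List.range n).map f) i = f i := by
  unfold gL
  rw [List.getElem?_map, List.getElem?_range hi]
  rfl

theorem Code.card {c : Cand} {L : Fin n → ℕ} {Q : Finset (Fin m)} {W : ℕ} (h : Code c L Q W) :
    c.2.1.length = Q.card := by
  rw [← List.toFinset_card_of_nodup h.nodup, ← Finset.card_map Fin.valEmbedding]
  congr 1
  ext q
  rw [List.mem_toFinset, Finset.mem_map]
  constructor
  · intro hq
    exact ⟨⟨q, h.lt q hq⟩, (h.hQ _).2 hq, rfl⟩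
  · rintro ⟨o, ho, rfl⟩
    exact (h.hQ o).1 ho

/-- The code determines the chain. -/
theorem Code.eq {c : Cand} {L : Fin n → ℕ} {Q : Finset (Fin m)} {W : ℕ} (h : Code c L Q W) :
    L = (fun i => (gL c.1 i.val).val) ∧ Q = (Finset.univ.filter fun o => o.val ∈ c.2.1) ∧
      W = c.2.2.val := by
  refine ⟨funext fun i => (h.hL i).symm, ?_, h.hW.symm⟩
  ext o
  simp [h.hQ o]

theorem okB_iff {y : List BN} {c : Cand} {i p X : ℕ} : okB n y c i p X = true ↔
    X ∉ c.2.1 ∧ (gL c.1 p).val ≠ 0 ∧ (gL c.1 i).val = 0 ∧ (gv n y i X).val ≠ 0 ∧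
      (gv n y p X).val ≠ 0 := by
  unfold okB
  simp only [Bool.and_eq_true, Bool.not_eq_true', decide_eq_true_eq, decide_eq_false_iff_not,
    and_assoc, List.any_eq_false, ne_eq]
  constructor
  · rintro ⟨h1, h2⟩
    exact ⟨fun h => by simpa using h1 X h, h2⟩
  · rintro ⟨h1, h2⟩
    refine ⟨fun q hq => ?_, h2⟩
    intro h
    exact h1 (h ▸ hq)

theorem mem_extB {y : List BN} {T : List ℕ} {c c' : Cand} : c' ∈ extB n y T c ↔
    ∃ X ∈ T, ∃ p < n, ∃ i < n, okB n y c i p X = true ∧ c' = stepB n y c i p X := by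
  unfold extB
  simp only [List.mem_flatMap, List.mem_range]
  constructor
  · rintro ⟨X, hX, p, hp, i, hi, h⟩
    by_cases hok : okB n y c i p X = true
    · rw [if_pos hok, List.mem_singleton] at h
      exact ⟨X, hX, p, hp, i, hi, hok, h⟩
    · rw [if_neg hok] at h
      exact absurd h (by simp)
  · rintro ⟨X, hX, p, hp, i, hi, hok, h⟩
    refine ⟨X, hX, p, hp, i, hi, ?_⟩
    rw [if_pos hok, h]
    exact List.mem_singleton_self _

variable {y : List BN} {v : Fin n → Fin m → ℕ} {T : Finset (Fin m)}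

/-- the step on codes -/
theorem Code.step (hv : ∀ (i : Fin n) (o : Fin m), (gv n y i.val o.val).val = v i o)
    {c : Cand} {L : Fin n → ℕ} {Q : Finset (Fin m)} {W : ℕ} (h : Code c L Q W) {X : Fin m}
    {p i : Fin n} (hX : X ∉ Q) :
    Code (stepB n y c i.val p.val X.val)
      (fun q => if q = i then L p * v p X else L q * v i X) (insert X Q)
      (W * v i X + L p * v p X * v i X) := by
  unfold stepB newL
  refine ⟨fun q => ?_, ?_, ?_, fun o => ?_, ?_⟩
  · simp only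
    rw [gL_map _ q.2]
    by_cases hq : q = i
    · subst hq
      rw [if_pos (by simp), if_pos rfl, h.hL, hv]
    · rw [if_neg (by simpa [Fin.ext_iff] using hq), if_neg hq, h.hL, hv]
  · exact List.nodup_cons.2 ⟨fun hc => hX ((h.hQ X).2 hc), h.nodup⟩
  · intro q hq
    rcases List.mem_cons.1 hq with rfl | hq
    · exact X.2
    · exact h.lt q hq
  · rw [Finset.mem_insert, h.hQ o]
    change _ ↔ o.val ∈ X.val :: c.2.1
    rw [List.mem_cons, Fin.ext_iff]
  · simp only
    rw [h.hW, h.hL, hv, hv]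

/-- soundness -/
theorem candsB_sound (hv : ∀ (i : Fin n) (o : Fin m), (gv n y i.val o.val).val = v i o)
    (hT : ∀ o : Fin m, o ∈ T ↔ o.val ∈ TB n y) (hTm : ∀ q ∈ TB n y, q < m) :
    ∀ (j : ℕ) (c : Cand), c ∈ candsB n y j →
      ∃ L Q W, Code c L Q W ∧ Chain v T L Q W ∧ Q.card = j := by
  intro j
  induction j with
  | zero =>
    intro c hc
    obtain ⟨r, hr, rfl⟩ := List.mem_map.1 (show c ∈ (List.range n).map _ from hc)
    rw [List.mem_range] at hr
    refine ⟨fun q => if q = ⟨r, hr⟩ then 1 else 0, ∅, 0, ⟨fun i => ?_, List.nodup_nil, ?_,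
      fun o => ?_, rfl⟩, Chain.base _, rfl⟩
    · simp only
      rw [gL_map _ i.2]
      by_cases h : i.val = r
      · rw [if_pos h, if_pos (Fin.ext h)]
      · rw [if_neg h, if_neg (fun h' => h (congrArg Fin.val h'))]
    · intro q hq
      exact absurd hq (by simp)
    · simp
  | succ j ih =>
    intro c hc
    obtain ⟨c', hc', hcc⟩ := List.mem_flatMap.1 (show c ∈ (candsB n y j).flatMap _ from hc)
    obtain ⟨L, Q, W, hcode, hch, hcard⟩ := ih c' hc'
    obtain ⟨X, hX, p, hp, i, hi, hok, rfl⟩ := mem_extB.1 hcc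
    obtain ⟨h1, h2, h3, h4, h5⟩ := okB_iff.1 hok
    have hXm := hTm X hX
    have hXQ : (⟨X, hXm⟩ : Fin m) ∉ Q := fun h => h1 ((hcode.hQ _).1 h)
    refine ⟨_, _, _, hcode.step hv (X := ⟨X, hXm⟩) (p := ⟨p, hp⟩) (i := ⟨i, hi⟩) hXQ,
      Chain.step hch ((hT _).2 hX) hXQ ?_ ?_ ?_ ?_, ?_⟩
    · rw [← hcode.hL]; exact h2
    · rw [← hcode.hL]; exact h3
    · rw [← hv]; exact h4
    · rw [← hv]; exact h5
    · rw [Finset.card_insert_of_notMem hXQ, hcard]

/-- completeness -/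
theorem candsB_complete (hv : ∀ (i : Fin n) (o : Fin m), (gv n y i.val o.val).val = v i o)
    (hT : ∀ o : Fin m, o ∈ T ↔ o.val ∈ TB n y)
    {L : Fin n → ℕ} {Q : Finset (Fin m)} {W : ℕ} (h : Chain v T L Q W) :
    ∃ c ∈ candsB n y Q.card, Code c L Q W := by
  induction h with
  | base r =>
    refine ⟨((List.range n).map fun q => if q = r.val then ⟨1⟩ else ⟨0⟩, [], ⟨0⟩), ?_,
      ⟨fun i => ?_, List.nodup_nil, ?_, fun o => ?_, rfl⟩⟩
    · exact List.mem_map.2 ⟨r.val, List.mem_range.2 r.2, rfl⟩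
    · simp only
      rw [gL_map _ i.2]
      by_cases h : i = r
      · rw [if_pos (congrArg Fin.val h), if_pos h]
      · rw [if_neg (fun h' => h (Fin.ext h')), if_neg h]
    · intro q hq
      exact absurd hq (by simp)
    · simp
  | @step L Q W hch X hX hQ p i hp hi hvi hvp ih =>
    obtain ⟨c, hc, hcode⟩ := ih
    refine ⟨stepB n y c i.val p.val X.val, ?_, hcode.step hv hQ⟩
    rw [Finset.card_insert_of_notMem hQ]
    refine List.mem_flatMap.2 ⟨c, hc, mem_extB.2 ⟨X.val, (hT X).1 hX, p.val, p.2, i.val, i.2,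
      okB_iff.2 ⟨fun h => hQ ((hcode.hQ X).2 h), ?_, ?_, ?_, ?_⟩, rfl⟩⟩
    · rw [hcode.hL]; exact hp
    · rw [hcode.hL]; exact hi
    · rw [hv]; exact hvi
    · rw [hv]; exact hvp

/-- The members of `candsB` and the chains. -/
theorem exists_candsB_iff (hv : ∀ (i : Fin n) (o : Fin m), (gv n y i.val o.val).val = v i o)
    (hT : ∀ o : Fin m, o ∈ T ↔ o.val ∈ TB n y) (hTm : ∀ q ∈ TB n y, q < m)
    {P : (Fin n → ℕ) → Finset (Fin m) → ℕ → Prop} {B : Cand → Bool}
    (hB : ∀ c L Q W, Code c L Q W → Chain v T L Q W → (B c = true ↔ P L Q W)) (N : ℕ) :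
    ((List.range N).any fun j => (candsB n y j).any B) = true ↔
      ∃ L Q W, Chain v T L Q W ∧ Q.card < N ∧ P L Q W := by
  rw [List.any_eq_true]
  constructor
  · rintro ⟨j, hj, h⟩
    obtain ⟨c, hc, hBc⟩ := List.any_eq_true.1 h
    obtain ⟨L, Q, W, hcode, hch, hcard⟩ := candsB_sound hv hT hTm j c hc
    exact ⟨L, Q, W, hch, by rw [hcard]; exact List.mem_range.1 hj, (hB c L Q W hcode hch).1 hBc⟩
  · rintro ⟨L, Q, W, hch, hcard, hP⟩
    obtain ⟨c, hc, hcode⟩ := candsB_complete hv hT hch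
    exact ⟨Q.card, List.mem_range.2 hcard, List.any_eq_true.2 ⟨c, hc, (hB c L Q W hcode hch).2 hP⟩⟩

/-- the values -/
theorem gv_map (n : ℕ) (y : List ℕ) (i : Fin n) (o : Fin (y.length / n)) :
    (gv n (y.map fun a => (⟨a⟩ : BN)) i.val o.val).val = y.getD (i.val * (y.length / n) + o.val) 0 := by
  unfold gv mB
  rw [List.length_map, List.getElem?_map, List.getD_eq_getElem?_getD]
  cases y[i.val * (y.length / n) + o.val]? <;> rfl

end Pool.Agent.FairDivA
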