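import Pool.Agent.Lib_MP_42f051_alg.Chain
import Pool.Agent.Lib_MP_42f051_alg.Alg
import Pool.Agent.Lib_MP_42f051_alg.ChainsL

/-!
# PROP-SharedObj(n, n - 2): the algorithm gives the answer `Answer`
-/

namespace Pool.Agent.FairDivA

open Pool.Agent.PartSep.TM

variable {n m : ℕ}

theorem IsFirst.unique {v : Fin n → Fin m → ℕ} {j j' : ℕ} (h : IsFirst v j) (h' : IsFirst v j') :
    j = j' := by
  rcases Nat.lt_trichotomy j j' with h1 | h1 | h1
  · exact absurd h.1 (h'.2 j h1)
  · exact h1
  · exact absurd h'.1 (h.2 j' h1)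

theorem IsT.unique {v : Fin n → Fin m → ℕ} {j : ℕ} {T T' : Finset (Fin m)} (h : IsT v j T)
    (h' : IsT v j T') : T = T' := by
  ext o
  rw [h o, h' o]

theorem answer_iff_of {v : Fin n → Fin m → ℕ} {j : ℕ} {T : Finset (Fin m)} (hj : IsFirst v j)
    (hT : IsT v j T) :
    Answer v ↔ (j = 0 ∨ (¬ ∃ k, T.card + 1 = n * k) ∨
      ∃ k, T.card + 1 = n * k ∧ BadChain v T k) := by
  constructor
  · rintro ⟨j', T', h1, h2, h3⟩
    obtain rfl := hj.unique h1
    obtain rfl := hT.unique h2
    exact h3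
  · exact fun h => ⟨j, T, hj, hT, h⟩

/-- The algorithm computes `Answer`, from the correctness of its parts. -/
theorem algo_iff_of (hn : 2 ≤ n) {v : Fin n → Fin m → ℕ} {y : List BN}
    {dp : ℕ → List (List BN) → BN} (hm : mB n y = m)
    (hv : ∀ (i : Fin n) (o : Fin m), (gv n y i.val o.val).val = v i o)
    (hj : IsFirst v (jB n y)) {T : Finset (Fin m)} (hT : IsT v (jB n y) T)
    (hTB : ∀ o : Fin m, o ∈ T ↔ o.val ∈ TB n y) (hcard : T.card = (TB n y).length)
    (hbad : ∀ c L Q W, Code c L Q W → Chain v T L Q W →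
      (badB dp n y c = true ↔ Bad v T (kB n y) L Q W)) :
    algo dp n y = true ↔ Answer v := by
  have hTm : ∀ q ∈ TB n y, q < m := by
    intro q hq
    have := List.mem_range.1 (List.mem_filter.1 (show q ∈ (List.range (mB n y)).filter _ from hq)).1
    omega
  have hc := exists_candsB_iff (y := y) (v := v) (T := T) hv hTB hTm (P := Bad v T (kB n y))
    (B := badB dp n y) hbad (n - 1)
  rw [answer_iff_of hj hT]
  unfold algo
  rw [Bool.or_eq_true, Bool.or_eq_true, decide_eq_true_eq, Bool.not_eq_true', decide_eq_false_iff_not,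
    hc]
  have hk : (∃ k, T.card + 1 = n * k) ↔ n * kB n y = (TB n y).length + 1 := by
    rw [hcard]
    unfold kB
    constructor
    · rintro ⟨k, hk⟩
      rw [hk, Nat.mul_div_cancel_left _ (by omega)]
    · intro h
      exact ⟨_, h.symm⟩
  rw [hk, or_assoc]
  refine or_congr Iff.rfl ?_
  by_cases h : n * kB n y = (TB n y).length + 1
  · simp only [h, not_true_eq_false, false_or]
    constructor
    · rintro ⟨L, Q, W, h1, h2, h3⟩
      exact ⟨kB n y, by rw [hcard]; exact h.symm, L, Q, W, h1, by omega, h3⟩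
    · rintro ⟨k, hk, L, Q, W, h1, h2, h3⟩
      have : k = kB n y := by
        rw [hcard, ← h] at hk
        exact (Nat.eq_of_mul_eq_mul_left (by omega) hk).symm
      subst this
      exact ⟨L, Q, W, h1, by omega, h3⟩
  · simp only [h, not_false_eq_true, true_or]

end Pool.Agent.FairDivA
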