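import Pool.Agent.Lib_MP_42f051_lc_p.Cert
import Pool.Agent.Lib_MP_42f051_alg.Chain

/-!
# PROP-SharedObj(n, n - 2): the answer of the algorithm is right
-/

namespace Pool.Agent.FairDivA

open Pool.Agent.FairDiv Pool.Agent.FairDivS Pool.Agent.FairDivP Finset

variable {n m : ℕ}

theorem accS_iff (hn : 1 ≤ n) (v : Fin n → Fin m → ℕ) (i : Fin n) (R : Finset (Fin m)) :
    AccS v i R ↔ tv v i ≤ n * sv v i R := by
  have h0 : (0 : ℝ) < n := by exact_mod_cast hn
  unfold AccS fs tv sv
  rw [div_le_iff₀ h0]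
  constructor
  · intro h
    have h' : ((∑ o, v i o : ℕ) : ℝ) ≤ ((n * ∑ o ∈ R, v i o : ℕ) : ℝ) := by
      push_cast
      linarith
    exact_mod_cast h'
  · intro h
    have h' : ((∑ o, v i o : ℕ) : ℝ) ≤ ((n * ∑ o ∈ R, v i o : ℕ) : ℝ) := by exact_mod_cast h
    push_cast at h'
    linarith

theorem someAcc_iff (hn : 1 ≤ n) (v : Fin n → Fin m → ℕ) (R : Finset (Fin m)) :
    SomeAcc v R ↔ ∃ i, AccS v i R := by
  simp only [SomeAcc, accS_iff hn]

theorem pre_top (m : ℕ) : pre m m = univ := by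
  ext o
  simp [pre, o.2]

theorem pre_zero (m : ℕ) : pre m 0 = ∅ := by
  ext o
  simp [pre]

theorem exists_first (hn : 1 ≤ n) (v : Fin n → Fin m → ℕ) : ∃ j, j ≤ m ∧ IsFirst v j := by
  classical
  have h : ∃ j, SomeAcc v (pre m j) := by
    refine ⟨m, ⟨0, hn⟩, ?_⟩
    rw [pre_top]
    unfold tv sv
    exact Nat.le_mul_of_pos_left _ hn
  refine ⟨Nat.find h, ?_, Nat.find_spec h, fun j' hj' => Nat.find_min h hj'⟩
  apply Nat.find_min'
  refine ⟨⟨0, hn⟩, ?_⟩
  rw [pre_top]
  unfold tv sv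
  exact Nat.le_mul_of_pos_left _ hn

open scoped Classical in
theorem exists_isT (v : Fin n → Fin m → ℕ) (j : ℕ) : ∃ T, IsT v j T :=
  ⟨univ.filter fun o => (o.val + 1 < j ∧ ¬ SomeAcc v ((pre m j).erase o)) ∨ o.val + 1 = j ∨
      (j ≤ o.val ∧ SomeAcc v (insert o (pre m (j - 1)))), fun o => by simp⟩

theorem isT_eq (hn : 1 ≤ n) (v : Fin n → Fin m → ℕ) {k : ℕ} (hk : 1 ≤ k) {T₀ : Finset (Fin m)}
    (hU : Uniform v k T₀) {j : ℕ} (hj : IsFirst v j) {T : Finset (Fin m)} (hT : IsT v j T) :
    j ≠ 0 ∧ T = T₀ := by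
  have hA : ∀ R, SomeAcc v R ↔ k ≤ (R ∩ T₀).card := fun R => by
    rw [someAcc_iff hn]; exact hU R
  have hj0 : j ≠ 0 := by
    rintro rfl
    have := (hA _).1 hj.1
    rw [pre_zero, empty_inter, card_empty] at this
    omega
  obtain ⟨i, rfl⟩ : ∃ i, j = i + 1 := ⟨j - 1, by omega⟩
  have h1 : k ≤ (pre m (i + 1) ∩ T₀).card := (hA _).1 hj.1
  have h2 : (pre m i ∩ T₀).card < k := by
    have := hj.2 i (by omega)
    rw [hA] at this
    omega
  have him : i < m := by
    by_contra him
    have : pre m (i + 1) = pre m i := by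
      ext o
      have := o.2
      simp only [pre, mem_filter, mem_univ, true_and]
      omega
    rw [this] at h1
    omega
  have hpre : pre m (i + 1) = insert ⟨i, him⟩ (pre m i) := by
    ext o
    simp only [pre, mem_filter, mem_univ, true_and, mem_insert, Fin.ext_iff]
    omega
  have hmem : (⟨i, him⟩ : Fin m) ∈ T₀ := by
    by_contra hc
    rw [hpre, insert_inter_of_notMem hc] at h1
    omega
  have hnot : (⟨i, him⟩ : Fin m) ∉ pre m i := by simp [pre]
  have h3 : (pre m (i + 1) ∩ T₀).card = (pre m i ∩ T₀).card + 1 := by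
    rw [hpre, insert_inter_of_mem hmem, card_insert_of_notMem]
    exact fun h => hnot (mem_inter.1 h).1
  have h4 : (pre m (i + 1) ∩ T₀).card = k := by omega
  have h5 : (pre m i ∩ T₀).card = k - 1 := by omega
  refine ⟨hj0, ?_⟩
  ext o
  rw [hT o]
  rcases lt_trichotomy (o.val + 1) (i + 1) with ho | ho | ho
  · have e : (((pre m (i + 1)).erase o) ∩ T₀) = (pre m (i + 1) ∩ T₀).erase o := by
      ext x; simp only [mem_inter, mem_erase]; tauto
    have hin : o ∈ pre m (i + 1) := by simp only [pre, mem_filter, mem_univ, true_and]; omega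
    constructor
    · rintro (⟨_, h⟩ | h | ⟨h, _⟩)
      · by_contra hc
        apply h
        rw [hA, e, erase_eq_of_notMem (fun h' => hc (mem_inter.1 h').2)]
        exact h1
      · omega
      · omega
    · intro hoT
      left
      refine ⟨ho, ?_⟩
      rw [hA, e, card_erase_of_mem (mem_inter.2 ⟨hin, hoT⟩)]
      omega
  · have : o = ⟨i, him⟩ := Fin.ext (by simpa using ho)
    subst this
    constructor
    · intro _; exact hmem
    · intro _; right; left; rfl
  · have hnin : o ∉ pre m i := by simp only [pre, mem_filter, mem_univ, true_and]; omega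
    constructor
    · rintro (⟨h, _⟩ | h | ⟨_, h⟩)
      · omega
      · omega
      · by_contra hc
        rw [hA, Nat.add_sub_cancel, insert_inter_of_notMem hc] at h
        omega
    · intro hoT
      right; right
      refine ⟨by omega, ?_⟩
      rw [hA, Nat.add_sub_cancel, insert_inter_of_mem hoT, card_insert_of_notMem
        (fun h => hnin (mem_inter.1 h).1)]
      omega

theorem yes_iff_answer' (hn : 3 ≤ n) (v : Fin n → Fin m → ℕ)
    (hUNI : ¬ Yes v (n - 2) → ∃ k, 1 ≤ k ∧ ∃ T : Finset (Fin m), T.card = n * k - 1 ∧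
      Uniform v k T)
    (h4 : ∀ (k : ℕ) (T : Finset (Fin m)), 1 ≤ k → T.card = n * k - 1 → Uniform v k T →
      BadChain v T k → Yes v (n - 2))
    (h5 : ∀ (k : ℕ) (T : Finset (Fin m)), 1 ≤ k → T.card = n * k - 1 → Yes v (n - 2) →
      BadChain v T k) : Yes v (n - 2) ↔ Answer v := by
  constructor
  · intro h
    obtain ⟨j, _, hj⟩ := exists_first (by omega) v
    obtain ⟨T, hT⟩ := exists_isT v j
    refine ⟨j, T, hj, hT, ?_⟩
    by_cases hk : ∃ k, T.card + 1 = n * k
    · right; right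
      obtain ⟨k, hk⟩ := hk
      refine ⟨k, hk, h5 k T ?_ (by omega) h⟩
      rcases Nat.eq_zero_or_pos k with h0 | h0
      · rw [h0] at hk; omega
      · exact h0
    · right; left; exact hk
  · rintro ⟨j, T, hj, hT, h⟩
    by_contra hno
    obtain ⟨k, hk, T₀, hc, hU⟩ := hUNI hno
    obtain ⟨hj0, rfl⟩ := isT_eq (by omega) v hk hU hj hT
    have h1 : 1 ≤ n * k := Nat.mul_pos (by omega) hk
    rcases h with h | h | ⟨k', hk', hB⟩
    · exact hj0 h
    · exact h ⟨k, by omega⟩
    · have : k' = k := by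
        apply Nat.eq_of_mul_eq_mul_left (show 0 < n by omega)
        omega
      subst this
      exact hno (h4 k' T hk hc hU hB)

end Pool.Agent.FairDivA
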