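import Pool.Agent.Lib_MP_42f051_alg.ChainsL
import Pool.Agent.Lib_MP_42f051_dp.Best

/-!
# The test `badB` on codes of chains
-/

namespace Pool.Agent.FairDivA

open Pool.Agent.PartSep.TM Pool.Agent.FairDivDP

variable {n m : ℕ}

/-- a row of weights as a function -/
def rowF (n : ℕ) (r : List BN) : Fin n → ℕ := fun i => (gL r i.val).val

/-- the property of the dynamic program that is used -/
def DPSpec (n : ℕ) (dp : ℕ → List (List BN) → BN) : Prop :=
  ∀ (K : ℕ) (W : List (List BN)), (∀ r ∈ W, r.length = n) →
    (dp K W).val = best (W.map (rowF n)) (fun _ => K)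

theorem sum_range_filter (m : ℕ) (p : ℕ → Bool) (g : ℕ → ℕ) :
    (((List.range m).filter p).map g).sum = ∑ o : Fin m with p o.val = true, g o.val := by
  have h1 : ((List.range m).filter p).Nodup := List.nodup_range.filter _
  rw [← List.sum_toFinset _ h1]
  have h2 : ((List.range m).filter p).toFinset =
      (Finset.univ.filter fun o : Fin m => p o.val = true).map Fin.valEmbedding := by
    ext q
    simp only [List.mem_toFinset, List.mem_filter, List.mem_range, Finset.mem_map,
      Finset.mem_filter, Finset.mem_univ, true_and, Fin.valEmbedding_apply]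
    constructor
    · rintro ⟨h, h'⟩
      exact ⟨⟨q, h⟩, h', rfl⟩
    · rintro ⟨o, h, rfl⟩
      exact ⟨o.2, h⟩
  rw [h2, Finset.sum_map]
  rfl

theorem sum_range' (m : ℕ) (g : ℕ → ℕ) :
    ((List.range m).map g).sum = ∑ o : Fin m, g o.val := by
  have := sum_range_filter m (fun _ => true) g
  rw [List.filter_true] at this
  rw [this]
  simp

theorem foldl_max (f : ℕ → ℕ) (l : List ℕ) (s : BN) :
    (l.foldl (fun s i => if decide (s.val ≤ f i) then ⟨f i⟩ else s) s).val =
      max s.val (l.toFinset.sup f) := by
  induction l generalizing s with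
  | nil => simp
  | cons a l ih =>
    rw [List.foldl_cons, ih, List.toFinset_cons, Finset.sup_insert]
    by_cases h : s.val ≤ f a
    · rw [if_pos (by simpa using h)]
      simp only
      rw [← max_assoc, max_eq_right h]
    · rw [if_neg (by simpa using h)]
      have h' : f a ≤ s.val := by omega
      change max s.val _ = max s.val (max _ _)
      rw [← max_assoc, max_eq_left h']

variable {y : List BN} {v : Fin n → Fin m → ℕ} {T : Finset (Fin m)} {c : Cand} {L : Fin n → ℕ}
  {Q : Finset (Fin m)} {W : ℕ}

theorem tvB_val (hm : mB n y = m) (hv : ∀ (i : Fin n) (o : Fin m), (gv n y i.val o.val).val = v i o)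
    (i : Fin n) : (tvB n y i.val).val = tv v i := by
  unfold tvB svB tv
  simp only
  rw [hm, sum_range']
  exact Finset.sum_congr rfl fun o _ => hv i o

theorem demB_val (hm : mB n y = m)
    (hv : ∀ (i : Fin n) (o : Fin m), (gv n y i.val o.val).val = v i o) (h : Code c L Q W) :
    (demB n y c).val = ∑ i, L i * tv v i := by
  unfold demB
  simp only
  rw [sum_range']
  exact Finset.sum_congr rfl fun i _ => by rw [tvB_val hm hv, h.hL]

theorem mxB_val (hv : ∀ (i : Fin n) (o : Fin m), (gv n y i.val o.val).val = v i o)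
    (h : Code c L Q W) (o : Fin m) :
    (mxB n y c.1 o.val).val = Finset.univ.sup (fun i => L i * v i o) := by
  unfold mxB
  rw [foldl_max (fun i => (gL c.1 i).val * (gv n y i o.val).val), List.toFinset_range]
  change max 0 _ = _
  rw [Nat.zero_max]
  have h2 : Finset.range n = (Finset.univ : Finset (Fin n)).map Fin.valEmbedding := by
    ext q
    simp only [Finset.mem_range, Finset.mem_map, Finset.mem_univ, true_and,
      Fin.valEmbedding_apply]
    exact ⟨fun hq => ⟨⟨q, hq⟩, rfl⟩, by rintro ⟨o, rfl⟩; exact o.2⟩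
  rw [h2, Finset.sup_map]
  apply Finset.sup_congr rfl
  intro i _
  change (gL c.1 i.val).val * (gv n y i.val o.val).val = _
  rw [h.hL, hv]

theorem mem_TB_iff {o : ℕ} : o ∈ TB n y ↔ o < mB n y ∧ inT n y o = true := by
  unfold TB
  rw [List.mem_filter, List.mem_range]

theorem supB_val (hm : mB n y = m)
    (hv : ∀ (i : Fin n) (o : Fin m), (gv n y i.val o.val).val = v i o)
    (hT : ∀ o : Fin m, o ∈ T ↔ o.val ∈ TB n y) (h : Code c L Q W) :
    (supB n y c).val = W + ∑ o ∈ Finset.univ \ T, Finset.univ.sup (fun i => L i * v i o) := by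
  unfold supB
  simp only
  rw [h.hW, hm, sum_range_filter]
  congr 1
  have h2 : (Finset.univ.filter fun o : Fin m => (!inT n y o.val) = true) = Finset.univ \ T := by
    ext o
    rw [Finset.mem_filter, Finset.mem_sdiff, hT o, mem_TB_iff, hm]
    simp [o.2]
  rw [h2]
  exact Finset.sum_congr rfl fun o _ => mxB_val hv h o

theorem rowsB_map (hm : mB n y = m) :
    (rowsB n y c).map (rowF n) = ((List.finRange m).filter fun o => inT n y o.val &&
      !(c.2.1.any fun q => decide (q = o.val))).map
        fun o => fun i : Fin n => (gL c.1 i.val).val * (gv n y i.val o.val).val := by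
  have e : List.range m = (List.finRange m).map Fin.val := List.map_coe_finRange_eq_range.symm
  unfold rowsB TB
  rw [hm, List.map_map, List.filter_filter, e, List.filter_map, List.map_map]
  congr 1
  · funext o i
    change (gL ((List.range n).map _) i.val).val = _
    rw [gL_map _ i.2]
  · apply List.filter_congr
    intro o _
    simp only [Function.comp]
    rw [Bool.and_comm]

theorem badB_iff {dp : ℕ → List (List BN) → BN} (hdp : DPSpec n dp) {k : ℕ} (hm : mB n y = m)
    (hv : ∀ (i : Fin n) (o : Fin m), (gv n y i.val o.val).val = v i o)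
    (hT : ∀ o : Fin m, o ∈ T ↔ o.val ∈ TB n y) (hk : kB n y = k) (h : Code c L Q W) :
    badB dp n y c = true ↔ Bad v T k L Q W := by
  have hrow : ∀ r ∈ rowsB n y c, r.length = n := by
    intro r hr
    obtain ⟨o, -, rfl⟩ := List.mem_map.1 hr
    simp
  set os : List (Fin m) := (List.finRange m).filter fun o => inT n y o.val &&
      !(c.2.1.any fun q => decide (q = o.val)) with hos
  have hos1 : os.Nodup := (List.nodup_finRange m).filter _
  have hos2 : ∀ o : Fin m, o ∈ os ↔ o ∈ T \ Q := by
    intro o
    rw [hos, List.mem_filter, Finset.mem_sdiff, hT o, mem_TB_iff, h.hQ o]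
    simp only [List.mem_finRange, true_and, Bool.and_eq_true, Bool.not_eq_true', hm, o.2,
      List.any_eq_false, decide_eq_true_eq]
    constructor
    · rintro ⟨h1, h2⟩
      exact ⟨h1, fun h3 => h2 _ h3 rfl⟩
    · rintro ⟨h1, h2⟩
      exact ⟨h1, fun q hq hqo => h2 (hqo ▸ hq)⟩
  have hf : (fun o : Fin m => fun i : Fin n => (gL c.1 i.val).val * (gv n y i.val o.val).val) =
      fun o i => L i * v i o := by
    funext o i
    rw [h.hL, hv]
  unfold badB
  rw [decide_eq_true_eq, demB_val hm hv h, supB_val hm hv hT h, hdp _ _ hrow, rowsB_map hm, hk,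
    ← hos, hf]
  constructor
  · intro hle
    obtain ⟨S, h1, h2, h3, h4⟩ := exists_best (fun (o : Fin m) (i : Fin n) => L i * v i o) os hos1
      (fun _ => k - 1)
    refine ⟨S, h2, fun i o ho => (hos2 o).1 (h1 i o ho), h3, ?_⟩
    rw [← h4] at hle
    simp only [sv, Finset.mul_sum]
    exact hle
  · rintro ⟨S, h1, h2, h3, h4⟩
    have h5 := le_best (fun (o : Fin m) (i : Fin n) => L i * v i o) os (fun _ => k - 1) S
      (fun i o ho => (hos2 o).2 (h2 i ho)) h1 h3
    refine h4.trans (Nat.mul_le_mul le_rfl (Nat.add_le_add le_rfl ?_))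
    simpa only [sv, Finset.mul_sum] using h5

end Pool.Agent.FairDivA
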