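import Pool.Agent.Lib_MP_42f051_alg.Chain
import Pool.Agent.Lib_MP_42f051_lc_p.Cert

/-!
# PROP-SharedObj(n, n - 2): a bad chain gives a set of agents which can be satisfied
-/

namespace Pool.Agent.FairDivA

open Pool.Agent.FairDivP (SatSet Acc fs)

variable {n m : ℕ}

theorem sum_step (L : Fin n → ℕ) (i : Fin n) (hi : L i = 0) (a b : ℕ) (x : Fin n → ℝ) :
    ∑ q, ((if q = i then a else L q * b : ℕ) : ℝ) * x q = a * x i + b * ∑ q, (L q : ℝ) * x q := by
  have h : ∀ q, ((if q = i then a else L q * b : ℕ) : ℝ) * x q =
      (if q = i then (a : ℝ) * x i else 0) + b * ((L q : ℝ) * x q) := by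
    intro q
    by_cases hq : q = i
    · subst hq
      simp [hi]
    · simp only [hq, if_false]
      push_cast
      ring
  rw [Finset.sum_congr rfl fun q _ => h q, Finset.sum_add_distrib, ← Finset.mul_sum]
  simp

theorem core {v : Fin n → Fin m → ℕ} {T : Finset (Fin m)} {L : Fin n → ℕ} {Q : Finset (Fin m)}
    {W : ℕ} (hC : Chain v T L Q W) : ∀ (u s : Fin n → ℝ),
    ∑ q, (L q : ℝ) * s q ≤ ∑ q, (L q : ℝ) * u q + W →
    ∃ (Y : Finset (Fin n)) (P : Finset (Fin m)) (c : Fin m → Fin n → ℝ), Y.Nonempty ∧
      (∀ q ∈ Y, L q ≠ 0) ∧ P ⊆ Q ∧ P.card + 1 = Y.card ∧ (∀ o q, 0 ≤ c o q) ∧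
      (∀ o ∈ P, ∑ q ∈ Y, c o q = 1) ∧ ∀ q ∈ Y, s q ≤ u q + ∑ o ∈ P, c o q * v q o := by
  induction hC with
  | base r =>
    intro u s h
    refine ⟨{r}, ∅, fun _ _ => 0, Finset.singleton_nonempty r, ?_, subset_rfl, by simp,
      fun _ _ => le_rfl, by simp, ?_⟩
    · intro q hq
      rw [Finset.mem_singleton] at hq
      simp [hq]
    · intro q hq
      rw [Finset.mem_singleton] at hq
      subst hq
      simp only [Finset.sum_empty, add_zero]
      have e : ∀ x : Fin n → ℝ, ∑ q', (((if q' = q then 1 else 0 : ℕ)) : ℝ) * x q' = x q := by
        intro x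
        simp
      rw [e, e] at h
      simpa using h
  | @step L Q W hC X hXT hXQ p i hLp hLi hvi hvp ih =>
    intro u s h
    rw [sum_step L i hLi, sum_step L i hLi] at h
    have hpi : p ≠ i := fun e => hLp (e ▸ hLi)
    set A : ℝ := (L p : ℝ) * v p X with hA
    have hA0 : 0 < A := by
      have h1 : (0 : ℝ) < L p := by exact_mod_cast Nat.pos_of_ne_zero hLp
      have h2 : (0 : ℝ) < v p X := by exact_mod_cast Nat.pos_of_ne_zero hvp
      positivity
    have hv0 : (0 : ℝ) < v i X := by exact_mod_cast Nat.pos_of_ne_zero hvi
    have hA' : ((L p * v p X : ℕ) : ℝ) = A := by push_cast; rfl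
    have hW' : ((W * v i X + L p * v p X * v i X : ℕ) : ℝ) = W * v i X + A * v i X := by
      push_cast; rfl
    rw [hA', hW'] at h
    set Ss : ℝ := ∑ q, (L q : ℝ) * s q with hSs
    set Su : ℝ := ∑ q, (L q : ℝ) * u q with hSu
    -- `D = A (s i - u i)`, `w = A v i X`
    rcases le_or_gt (s i) (u i) with hD | hD
    · refine ⟨{i}, ∅, fun _ _ => 0, Finset.singleton_nonempty i, ?_, Finset.empty_subset _,
        by simp, fun _ _ => le_rfl, by simp, ?_⟩
      · intro q hq
        rw [Finset.mem_singleton] at hq
        subst hq
        simp only [if_true]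
        exact Nat.mul_ne_zero hLp hvp
      · intro q hq
        rw [Finset.mem_singleton] at hq
        subst hq
        simpa using hD
    · rcases le_or_gt (s i - u i) (v i X) with hw | hw
      · -- the agent `i` takes the fraction `t` of `X`
        set t : ℝ := (s i - u i) / v i X with ht
        have ht0 : 0 ≤ t := div_nonneg (by linarith) hv0.le
        have ht1 : t ≤ 1 := (div_le_one hv0).mpr hw
        have htv : t * v i X = s i - u i := div_mul_cancel₀ _ hv0.ne'
        have hup : ∑ q, (L q : ℝ) * (Function.update u p (u p + (1 - t) * v p X)) q =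
            Su + A * (1 - t) := by
          have e : ∀ q, (L q : ℝ) * (Function.update u p (u p + (1 - t) * v p X)) q =
              (L q : ℝ) * u q + if q = p then A * (1 - t) else 0 := by
            intro q
            by_cases hq : q = p
            · subst hq
              simp only [Function.update_self, if_true]
              rw [hA]
              ring
            · simp [hq]
          rw [Finset.sum_congr rfl fun q _ => e q, Finset.sum_add_distrib]
          simp [hSu]
        obtain ⟨Y, P, c, hY, hYL, hPQ, hcard, hc0, hc1, hs⟩ :=
          ih (Function.update u p (u p + (1 - t) * v p X)) s (by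
            rw [hup]
            have h1 : (v i X : ℝ) * Ss ≤ v i X * (Su + A * (1 - t) + W) := by
              have h2 : A * s i - A * u i = A * (t * v i X) := by rw [htv]; ring
              nlinarith [h, h2]
            exact le_of_mul_le_mul_left h1 hv0)
        have hiY : i ∉ Y := fun hi => hYL i hi hLi
        by_cases hpY : p ∈ Y
        · have hXP : X ∉ P := fun hX => hXQ (hPQ hX)
          refine ⟨insert i Y, insert X P,
            fun o q => if o = X then (if q = i then t else if q = p then 1 - t else 0)
              else (if q = i then 0 else c o q), Finset.insert_nonempty _ _, ?_,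
            Finset.insert_subset_insert _ hPQ, ?_, ?_, ?_, ?_⟩
          · intro q hq
            rw [Finset.mem_insert] at hq
            rcases hq with rfl | hq
            · simp only [if_true]
              exact Nat.mul_ne_zero hLp hvp
            · have hqi : q ≠ i := fun e => hiY (e ▸ hq)
              simp only [hqi, if_false]
              exact Nat.mul_ne_zero (hYL q hq) hvi
          · rw [Finset.card_insert_of_notMem hXP, Finset.card_insert_of_notMem hiY, hcard]
          · intro o q
            dsimp only
            split_ifs
            · exact ht0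
            · linarith
            · exact le_rfl
            · exact le_rfl
            · exact hc0 o q
          · intro o ho
            rw [Finset.sum_insert hiY]
            by_cases hoX : o = X
            · simp only [hoX, if_true]
              have : ∀ q ∈ Y, (if q = i then t else if q = p then 1 - t else 0) =
                  if q = p then 1 - t else 0 := by
                intro q hq
                have hqi : q ≠ i := fun e => hiY (e ▸ hq)
                simp [hqi]
              rw [Finset.sum_congr rfl this, Finset.sum_ite_eq' Y p]
              simp [hpY]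
            · simp only [hoX, if_false, if_true]
              have : ∀ q ∈ Y, (if q = i then 0 else c o q) = c o q := by
                intro q hq
                have hqi : q ≠ i := fun e => hiY (e ▸ hq)
                simp [hqi]
              rw [Finset.sum_congr rfl this, zero_add]
              exact hc1 o (Finset.mem_of_mem_insert_of_ne ho hoX)
          · intro q hq
            rw [Finset.sum_insert hXP]
            have hne : ∀ o ∈ P, o ≠ X := fun o ho e => hXP (e ▸ ho)
            rw [Finset.mem_insert] at hq
            rcases hq with rfl | hq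
            · have : ∀ o ∈ P, (if o = X then (if q = q then t else if q = p then 1 - t else 0)
                  else (if q = q then 0 else c o q)) * (v q o : ℝ) = 0 := by
                intro o ho
                simp [hne o ho]
              rw [Finset.sum_congr rfl this]
              simp only [if_true, Finset.sum_const_zero, add_zero]
              linarith
            · have hqi : q ≠ i := fun e => hiY (e ▸ hq)
              have : ∀ o ∈ P, (if o = X then (if q = i then t else if q = p then 1 - t else 0)
                  else (if q = i then 0 else c o q)) * (v q o : ℝ) = c o q * v q o := by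
                intro o ho
                simp [hne o ho, hqi]
              rw [Finset.sum_congr rfl this]
              have h3 := hs q hq
              by_cases hqp : q = p
              · subst hqp
                simp only [Function.update_self] at h3
                simp only [if_true, hqi, if_false]
                linarith
              · rw [Function.update_of_ne hqp] at h3
                simp only [if_true, hqi, hqp, if_false]
                linarith
        · refine ⟨Y, P, c, hY, ?_, hPQ.trans (Finset.subset_insert _ _), hcard, hc0, hc1, ?_⟩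
          · intro q hq
            have hqi : q ≠ i := fun e => hiY (e ▸ hq)
            simp only [hqi, if_false]
            exact Nat.mul_ne_zero (hYL q hq) hvi
          · intro q hq
            have hqp : q ≠ p := fun e => hpY (e ▸ hq)
            have h3 := hs q hq
            rw [Function.update_of_ne hqp] at h3
            exact h3
      · -- forget `i` and `X`
        obtain ⟨Y, P, c, hY, hYL, hPQ, hcard, hc0, hc1, hs⟩ := ih u s (by
          have h1 : (v i X : ℝ) * Ss ≤ v i X * (Su + W) := by
            have h2 : A * v i X < A * (s i - u i) := mul_lt_mul_of_pos_left hw hA0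
            nlinarith [h, h2]
          exact le_of_mul_le_mul_left h1 hv0)
        have hiY : i ∉ Y := fun hi => hYL i hi hLi
        refine ⟨Y, P, c, hY, ?_, hPQ.trans (Finset.subset_insert _ _), hcard, hc0, hc1, hs⟩
        intro q hq
        have hqi : q ≠ i := fun e => hiY (e ▸ hq)
        simp only [hqi, if_false]
        exact Nat.mul_ne_zero (hYL q hq) hvi


theorem Chain.subset {v : Fin n → Fin m → ℕ} {T : Finset (Fin m)} {L : Fin n → ℕ}
    {Q : Finset (Fin m)} {W : ℕ} (hC : Chain v T L Q W) : Q ⊆ T := by
  induction hC with
  | base r => exact Finset.empty_subset _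
  | step _ hXT _ _ _ _ _ ih => exact Finset.insert_subset hXT ih

theorem arith_aux (N y a k' : ℕ) (h : N = y + a) :
    N * (k' + 1) = y * k' + y + a * (k' + 1) := by
  subst h
  ring

/-- A bad chain gives a set `Y` of agents which can be satisfied (with divisible objects) without the
objects of a large subset `K` of `T`. -/
theorem satSet_of_bad (hn : 3 ≤ n) (v : Fin n → Fin m → ℕ) {k : ℕ} (hk : 1 ≤ k)
    {T : Finset (Fin m)} (hT : T.card = n * k - 1) (h : BadChain v T k) :
    ∃ (Y : Finset (Fin n)) (K : Finset (Fin m)), Y ≠ Finset.univ ∧ K ⊆ T ∧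
      (n - Y.card) * k ≤ K.card ∧ SatSet v Y K := by
  classical
  obtain ⟨L, Q, W, hC, hQ, S, hSd, hST, hSk, hbad⟩ := h
  have hne : (Finset.univ : Finset (Fin n)).Nonempty := ⟨⟨0, by omega⟩, Finset.mem_univ _⟩
  have hg : ∀ o : Fin m, ∃ i : Fin n, Finset.univ.sup (fun i => L i * v i o) = L i * v i o := by
    intro o
    obtain ⟨i, _, hi⟩ := Finset.exists_mem_eq_sup Finset.univ hne (fun i => L i * v i o)
    exact ⟨i, hi⟩
  choose g hg using hg
  have hn0 : (0 : ℝ) < n := by
    have : 0 < n := by omega
    exact_mod_cast this
  have key := core hC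
    (fun i => ∑ o ∈ S i, (v i o : ℝ) + ∑ o ∈ (Finset.univ \ T).filter (fun o => g o = i), (v i o : ℝ))
    (fun i => fs v i) (by
      have h1 : ((∑ i, L i * tv v i : ℕ) : ℝ) ≤
          ((n * (W + ∑ o ∈ Finset.univ \ T, Finset.univ.sup (fun i => L i * v i o) +
            ∑ i, L i * sv v i (S i)) : ℕ) : ℝ) := by exact_mod_cast hbad
      have h2 : ∀ o, Finset.univ.sup (fun i => L i * v i o) = L (g o) * v (g o) o := hg
      simp only [h2, tv, sv] at h1
      push_cast at h1
      have h3 : ∑ o ∈ Finset.univ \ T, (L (g o) : ℝ) * v (g o) o =
          ∑ i, (L i : ℝ) * ∑ o ∈ (Finset.univ \ T).filter (fun o => g o = i), (v i o : ℝ) := by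
        rw [← Finset.sum_fiberwise (Finset.univ \ T) g]
        refine Finset.sum_congr rfl fun i _ => ?_
        rw [Finset.mul_sum]
        refine Finset.sum_congr rfl fun o ho => ?_
        rw [(Finset.mem_filter.1 ho).2]
      rw [h3] at h1
      have h4 : ∑ i, (L i : ℝ) * fs v i = (∑ i, (L i : ℝ) * ∑ o, (v i o : ℝ)) / n := by
        rw [Finset.sum_div]
        refine Finset.sum_congr rfl fun i _ => ?_
        rw [fs, mul_div_assoc]
      rw [h4, div_le_iff₀ hn0]
      simp only [mul_add, Finset.sum_add_distrib]
      calc ∑ i, (L i : ℝ) * ∑ o, (v i o : ℝ) ≤ _ := h1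
        _ = _ := by ring)
  obtain ⟨Y, P, c, hY, hYL, hPQ, hcard, hc0, hc1, hs⟩ := key
  have hPT : ∀ i, ∀ o ∈ S i, o ∉ P := fun i o ho hP =>
    (Finset.mem_sdiff.1 (hST i ho)).2 (hPQ hP)
  have hQT : Q ⊆ T := hC.subset
  have hYn : Y.card + 1 ≤ n := by
    have := Finset.card_le_card hPQ
    omega
  refine ⟨Y, T \ (Y.biUnion S ∪ P), ?_, Finset.sdiff_subset, ?_, ?_⟩
  · rintro rfl
    rw [Finset.card_univ, Fintype.card_fin] at hYn
    omega
  · have h1 : (Y.biUnion S ∪ P).card ≤ Y.card * (k - 1) + P.card :=
      (Finset.card_union_le _ _).trans
        (Nat.add_le_add_right (Finset.card_biUnion_le_card_mul _ _ _ fun i _ => hSk i) _)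
    have h2 := Finset.le_card_sdiff (Y.biUnion S ∪ P) T
    obtain ⟨a, ha, ha'⟩ : ∃ a, n - Y.card = a ∧ n = Y.card + a :=
      ⟨n - Y.card, rfl, by omega⟩
    obtain ⟨k', rfl⟩ : ∃ k', k = k' + 1 := ⟨k - 1, by omega⟩
    rw [Nat.add_sub_cancel] at h1
    rw [hT, arith_aux _ _ _ _ ha'] at h2
    rw [ha]
    omega
  · refine ⟨fun i o => if o ∈ P then c o i else if o ∈ S i then 1 else
      if o ∉ T ∧ g o = i then 1 else 0, ?_, ?_, ?_⟩
    · intro i o
      dsimp only
      split_ifs
      · exact hc0 o i
      · exact zero_le_one
      · exact zero_le_one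
      · exact le_rfl
    · intro o
      by_cases hoP : o ∈ P
      · simp only [hoP, if_true, hc1 o hoP]
        have : o ∉ T \ (Y.biUnion S ∪ P) := by simp [hoP]
        rw [if_neg this]
      · simp only [hoP, if_false]
        by_cases hoT : o ∈ T
        · simp only [hoT, not_true, false_and, if_false]
          by_cases hex : ∃ i ∈ Y, o ∈ S i
          · obtain ⟨i0, hi0, ho⟩ := hex
            have hK : o ∉ T \ (Y.biUnion S ∪ P) := by
              simp only [Finset.mem_sdiff, Finset.mem_union, Finset.mem_biUnion, not_and, not_not]
              exact fun _ => Or.inl ⟨i0, hi0, ho⟩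
            rw [if_neg hK]
            have : ∀ i ∈ Y, (if o ∈ S i then (1 : ℝ) else 0) = if i = i0 then 1 else 0 := by
              intro i _
              by_cases hi : i = i0
              · simp [hi, ho]
              · have : o ∉ S i := fun h' => Finset.disjoint_left.1 (hSd i i0 hi) h' ho
                simp [hi, this]
            rw [Finset.sum_congr rfl this, Finset.sum_ite_eq' Y i0, if_pos hi0]
          · push Not at hex
            have : ∀ i ∈ Y, (if o ∈ S i then (1 : ℝ) else 0) = 0 := fun i hi => by
              simp [hex i hi]
            rw [Finset.sum_congr rfl this, Finset.sum_const_zero]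
            split_ifs
            · exact le_rfl
            · exact zero_le_one
        · have hK : o ∉ T \ (Y.biUnion S ∪ P) := fun h' => hoT (Finset.mem_sdiff.1 h').1
          rw [if_neg hK]
          have : ∀ i ∈ Y, (if o ∈ S i then (1 : ℝ) else if o ∉ T ∧ g o = i then 1 else 0) =
              if i = g o then 1 else 0 := by
            intro i _
            have h' : o ∉ S i := fun h' => hoT (Finset.mem_sdiff.1 (hST i h')).1
            simp [h', hoT, eq_comm]
          rw [Finset.sum_congr rfl this, Finset.sum_ite_eq' Y (g o)]
          split_ifs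
          · exact le_rfl
          · exact zero_le_one
    · intro i hi
      refine (hs i hi).trans (le_of_eq ?_)
      have e : ∀ o, (v i o : ℝ) * (if o ∈ P then c o i else if o ∈ S i then 1 else
          if o ∉ T ∧ g o = i then 1 else 0) =
          (if o ∈ S i then (v i o : ℝ) else 0) +
            (if o ∈ (Finset.univ \ T).filter (fun o => g o = i) then (v i o : ℝ) else 0) +
            (if o ∈ P then c o i * v i o else 0) := by
        intro o
        by_cases hoP : o ∈ P
        · have h1 : o ∉ S i := fun h' => hPT i o h' hoP
          have h2 : o ∈ T := hQT (hPQ hoP)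
          simp [hoP, h1, h2, mul_comm]
        · by_cases hoS : o ∈ S i
          · have h2 : o ∈ T := (Finset.mem_sdiff.1 (hST i hoS)).1
            simp [hoP, hoS, h2]
          · by_cases hoT : o ∈ T
            · simp [hoP, hoS, hoT]
            · by_cases hgo : g o = i
              · simp [hoP, hoS, hoT, hgo]
              · simp [hoP, hoS, hoT, hgo]
      rw [Finset.sum_congr rfl fun o _ => e o, Finset.sum_add_distrib, Finset.sum_add_distrib,
        Finset.sum_ite_mem, Finset.sum_ite_mem, Finset.sum_ite_mem, Finset.univ_inter,
        Finset.univ_inter, Finset.univ_inter]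

end Pool.Agent.FairDivA
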