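import Pool.Agent.Lib_MP_42f051_alg.BadSat
import Pool.Agent.Lib_MP_42f051_lc_p.SatSet

/-!
# PROP-SharedObj(n, n - 2): a bad chain gives an allocation
-/

namespace Pool.Agent.FairDivA

open Pool.Agent.FairDivP

variable {n m : ℕ}

theorem yes_of_bad (hn : 3 ≤ n) (v : Fin n → Fin m → ℕ) {k : ℕ} (hk : 1 ≤ k)
    {T : Finset (Fin m)} (hT : T.card = n * k - 1) (hU : Uniform v k T) (h : BadChain v T k) :
    Yes v (n - 2) := by
  obtain ⟨Y, K, hY, hK, hc, hS⟩ := satSet_of_bad hn v hk hT h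
  exact yes_of_satSet hn v hk hT hU Y hY K hK hc hS

end Pool.Agent.FairDivA
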