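import Pool.Agent.Lib_MP_42f051_alg.RestrictA

/-!
# PROP-SharedObj(n, n - 2): a bad chain inside a minimal solution
-/

namespace Pool.Agent.FairDivA

open Pool.Agent.FairDiv Pool.Agent.FairDivS Pool.Agent.FairDivP Finset

variable {n m : ℕ}

section
variable {v : Fin n → Fin m → ℕ} {T : Finset (Fin m)} {k : ℕ} {Y : Finset (Fin n)}
  {K : Finset (Fin m)} {z : Fin n → Fin m → ℝ} {sh : Finset (Fin m)}

theorem Shape.v_ne (hs : Shape v T k Y K z sh) {o : Fin m} (ho : o ∈ sh) {i : Fin n}
    (hi : z i o ≠ 0) : v i o ≠ 0 := by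
  obtain ⟨a, b, _, _, _, _, _, ha, hb, h⟩ := hs.shared o ho
  rcases h i hi with rfl | rfl
  · exact ha
  · exact hb

theorem Shape.owners (hs : Shape v T k Y K z sh) {o : Fin m} (ho : o ∈ sh) {p i : Fin n}
    (hpi : p ≠ i) (hp : z p o ≠ 0) (hi : z i o ≠ 0) {q : Fin n} (hq : z q o ≠ 0) :
    q = p ∨ q = i := by
  obtain ⟨a, b, _, _, _, _, _, _, _, h⟩ := hs.shared o ho
  rcases h p hp with h1 | h1 <;> rcases h i hi with h2 | h2 <;> rcases h q hq with h3 | h3
  · left; rw [h3, h1]
  · exact absurd (h1.trans h2.symm) hpi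
  · left; rw [h3, h1]
  · right; rw [h3, h2]
  · right; rw [h3, h2]
  · left; rw [h3, h1]
  · exact absurd (h1.trans h2.symm) hpi
  · left; rw [h3, h1]

/-- a set of agents without common objects with the others and with few shared objects contradicts
the minimality -/
theorem Shape.small (hk : 1 ≤ k) (hT : T.card + 1 = n * k)
    (hmin : ∀ Y', PY v T k Y' → Y.card ≤ Y'.card) (hz : Sol v Y K z) (hs : Shape v T k Y K z sh)
    {A : Finset (Fin n)} (hA : A ⊆ Y) (hA0 : A.Nonempty) (hAY : A ≠ Y)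
    (hcross : ∀ X ∈ sh, ∀ p ∈ A, ∀ i ∉ A, z p X = 0 ∨ z i X = 0) :
    A.card ≤ (sh.filter fun o => ∃ a ∈ A, z a o ≠ 0).card := by
  classical
  by_contra hc
  push Not at hc
  have hsep : ∀ o, ∀ a ∈ A, ∀ b ∉ A, z a o = 0 ∨ z b o = 0 := by
    intro o a ha b hb
    by_cases ho : o ∈ sh
    · exact hcross o ho a ha b hb
    · rcases hs.whole o ho a with h1 | h1
      · exact Or.inl h1
      · rcases hs.whole o ho b with h2 | h2
        · exact Or.inr h2
        · exact absurd (hz.eq_of_one h1 h2 ▸ ha) hb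
  have hsub : (T.filter fun o => ∃ a ∈ A, z a o ≠ 0) ⊆ (sh.filter fun o => ∃ a ∈ A, z a o ≠ 0) ∪
      A.biUnion fun a => T.filter fun o => z a o = 1 := by
    intro o ho
    obtain ⟨hoT, a, ha, hao⟩ := mem_filter.1 ho
    rw [mem_union]
    by_cases h : o ∈ sh
    · exact Or.inl (mem_filter.2 ⟨h, a, ha, hao⟩)
    · right
      refine mem_biUnion.2 ⟨a, ha, mem_filter.2 ⟨hoT, ?_⟩⟩
      exact (hs.whole o h a).resolve_left hao
  have hcard : (T.filter fun o => ∃ a ∈ A, z a o ≠ 0).card + 1 ≤ A.card * k := by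
    have h1 := (card_le_card hsub).trans (card_union_le _ _)
    have h2 : (A.biUnion fun a => T.filter fun o => z a o = 1).card ≤ A.card * (k - 1) :=
      card_biUnion_le_card_mul _ _ _ fun a _ => hs.few a
    obtain ⟨k', rfl⟩ : ∃ k', k = k' + 1 := ⟨k - 1, by omega⟩
    rw [Nat.add_sub_cancel] at h2
    rw [Nat.mul_succ]
    omega
  have hlt : A.card < Y.card := card_lt_card (hA.ssubset_of_ne hAY)
  have := hmin A (PY.restrict hT hz hA hA0 hsep hcard)
  omega

/-- the chain is contained in the solution -/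
structure Inside (v : Fin n → Fin m → ℕ) (T : Finset (Fin m)) (Y : Finset (Fin n))
    (z : Fin n → Fin m → ℝ) (sh : Finset (Fin m)) (L : Fin n → ℕ) (Q : Finset (Fin m)) (W : ℕ) :
    Prop where
  chain : Chain v T L Q W
  inY : ∀ i, L i ≠ 0 → i ∈ Y
  card : Q.card + 1 = (univ.filter fun i => L i ≠ 0).card
  sub : ∀ X ∈ Q, X ∈ sh
  own : ∀ X ∈ Q, ∀ i, z i X ≠ 0 → L i ≠ 0
  price : ∀ X ∈ Q, ∀ a b, z a X ≠ 0 → z b X ≠ 0 → L a * v a X = L b * v b X
  sum : (W : ℝ) = ∑ X ∈ Q, ∑ i, (L i : ℝ) * v i X * z i X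

/-- there is an object which connects the chain with a further agent -/
theorem Inside.exists_cross (hk : 1 ≤ k) (hT : T.card + 1 = n * k)
    (hmin : ∀ Y', PY v T k Y' → Y.card ≤ Y'.card) (hz : Sol v Y K z) (hs : Shape v T k Y K z sh)
    {L : Fin n → ℕ} {Q : Finset (Fin m)} {W : ℕ} (h : Inside v T Y z sh L Q W)
    (hne : (univ.filter fun i => L i ≠ 0).card ≠ Y.card) :
    ∃ X ∈ sh, ∃ p i, z p X ≠ 0 ∧ z i X ≠ 0 ∧ L p ≠ 0 ∧ L i = 0 := by
  classical
  by_contra hc
  push Not at hc
  set A : Finset (Fin n) := univ.filter fun i => L i ≠ 0 with hAdef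
  have hmem : ∀ i, i ∈ A ↔ L i ≠ 0 := fun i => by simp [hAdef]
  have hA : A ⊆ Y := fun i hi => h.inY i ((hmem i).1 hi)
  have hA0 : A.Nonempty := by
    rw [← card_pos, ← h.card]; omega
  have hAY : A ≠ Y := fun e => hne (by rw [e])
  have hB0 : (Y \ A).Nonempty := by
    rw [sdiff_nonempty]
    exact fun e => hAY (subset_antisymm hA e)
  have hBY : Y \ A ≠ Y := by
    intro e
    obtain ⟨a, ha⟩ := hA0
    have : a ∈ Y \ A := by rw [e]; exact hA ha
    exact (mem_sdiff.1 this).2 ha
  have hcr : ∀ X ∈ sh, ∀ p i, z p X ≠ 0 → z i X ≠ 0 → p ∈ A → i ∈ A := by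
    intro X hX p i hp hi hpA
    rw [hmem] at hpA ⊢
    exact hc X hX p i hp hi hpA
  have h1 := hs.small hk hT hmin hz hA hA0 hAY (by
    intro X hX p hp i hi
    by_contra hno
    push Not at hno
    exact hi (hcr X hX p i hno.1 hno.2 hp))
  have h2 := hs.small hk hT hmin hz sdiff_subset hB0 hBY (by
    intro X hX p hp i hi
    by_contra hno
    push Not at hno
    have h3 : i ∈ A := by
      by_contra h3
      exact hi (mem_sdiff.2 ⟨hz.mem_of_ne hno.2, h3⟩)
    exact (mem_sdiff.1 hp).2 (hcr X hX i p hno.2 hno.1 h3))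
  have hdisj : Disjoint (sh.filter fun o => ∃ a ∈ A, z a o ≠ 0)
      (sh.filter fun o => ∃ a ∈ Y \ A, z a o ≠ 0) := by
    rw [disjoint_left]
    intro X hX hX'
    obtain ⟨hX1, a, ha, hao⟩ := mem_filter.1 hX
    obtain ⟨_, b, hb, hbo⟩ := mem_filter.1 hX'
    exact (mem_sdiff.1 hb).2 (hcr X hX1 a b hao hbo ha)
  have h3 : (sh.filter fun o => ∃ a ∈ A, z a o ≠ 0).card +
      (sh.filter fun o => ∃ a ∈ Y \ A, z a o ≠ 0).card ≤ sh.card := by
    rw [← card_union_of_disjoint hdisj]
    exact card_le_card (union_subset (filter_subset _ _) (filter_subset _ _))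
  have h4 : (Y \ A).card = Y.card - A.card := card_sdiff_of_subset hA
  have h5 := card_le_card hA
  have h6 := hs.card
  omega

/-- one step -/
theorem Inside.step (hz : Sol v Y K z) (hs : Shape v T k Y K z sh)
    {L : Fin n → ℕ} {Q : Finset (Fin m)} {W : ℕ} (h : Inside v T Y z sh L Q W)
    {X : Fin m} (hX : X ∈ sh) {p i : Fin n} (hpX : z p X ≠ 0) (hiX : z i X ≠ 0) (hp : L p ≠ 0)
    (hi : L i = 0) :
    Inside v T Y z sh (fun q => if q = i then L p * v p X else L q * v i X) (insert X Q)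
      (W * v i X + L p * v p X * v i X) ∧
    (univ.filter fun q => (if q = i then L p * v p X else L q * v i X) ≠ 0).card =
      (univ.filter fun q => L q ≠ 0).card + 1 := by
  classical
  have hpi : p ≠ i := fun e => hp (e ▸ hi)
  have hvi : v i X ≠ 0 := hs.v_ne hX hiX
  have hvp : v p X ≠ 0 := hs.v_ne hX hpX
  have hXQ : X ∉ Q := fun hXQ => h.own X hXQ i hiX hi
  have hXT : X ∈ T := (mem_sdiff.1 (hs.sub hX)).1
  have hXK : X ∉ K := (mem_sdiff.1 (hs.sub hX)).2
  have hne : ∀ q, (if q = i then L p * v p X else L q * v i X) ≠ 0 ↔ q = i ∨ L q ≠ 0 := by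
    intro q
    by_cases hq : q = i
    · simp [hq, hp, hvp]
    · simp [hq, hvi]
  have hset : (univ.filter fun q => (if q = i then L p * v p X else L q * v i X) ≠ 0) =
      insert i (univ.filter fun q => L q ≠ 0) := by
    ext q
    rw [mem_filter, mem_insert, mem_filter, hne q]
    simp
  have hcard : (univ.filter fun q => (if q = i then L p * v p X else L q * v i X) ≠ 0).card =
      (univ.filter fun q => L q ≠ 0).card + 1 := by
    rw [hset, card_insert_of_notMem]
    simp [hi]
  have hzi : ∀ X' ∈ Q, z i X' = 0 := fun X' hX' => by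
    by_contra hcon
    exact h.own X' hX' i hcon hi
  refine ⟨⟨?_, ?_, ?_, ?_, ?_, ?_, ?_⟩, hcard⟩
  · exact Chain.step h.chain hXT hXQ hp hi hvi hvp
  · intro q hq
    rcases (hne q).1 hq with rfl | hq'
    · exact hz.mem_of_ne hiX
    · exact h.inY q hq'
  · rw [hcard, card_insert_of_notMem hXQ, h.card]
  · intro X' hX'
    rcases mem_insert.1 hX' with rfl | h'
    · exact hX
    · exact h.sub X' h'
  · intro X' hX' q hq
    rw [hne q]
    rcases mem_insert.1 hX' with rfl | h'
    · rcases hs.owners hX hpi hpX hiX hq with rfl | rfl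
      · exact Or.inr hp
      · exact Or.inl rfl
    · exact Or.inr (h.own X' h' q hq)
  · intro X' hX' a b ha hb
    rcases mem_insert.1 hX' with rfl | h'
    · have key : ∀ q, z q X' ≠ 0 → (if q = i then L p * v p X' else L q * v i X') * v q X' =
          L p * v p X' * v i X' := by
        intro q hq
        rcases hs.owners hX hpi hpX hiX hq with rfl | rfl
        · rw [if_neg hpi]; ring
        · rw [if_pos rfl]
      rw [key a ha, key b hb]
    · have key : ∀ q, z q X' ≠ 0 → (if q = i then L p * v p X else L q * v i X) * v q X' =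
          (L q * v q X') * v i X := by
        intro q hq
        have hqi : q ≠ i := fun e => hq (e ▸ hzi X' h')
        rw [if_neg hqi]; ring
      rw [key a ha, key b hb, h.price X' h' a b ha hb]
  · rw [sum_insert hXQ]
    have e1 : ∑ q, (((if q = i then L p * v p X else L q * v i X : ℕ)) : ℝ) * v q X * z q X =
        (L p : ℝ) * v p X * v i X := by
      have : ∀ q ∈ univ, (((if q = i then L p * v p X else L q * v i X : ℕ)) : ℝ) * v q X * z q X =
          ((L p : ℝ) * v p X * v i X) * z q X := by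
        intro q _
        by_cases hq : z q X = 0
        · rw [hq, mul_zero, mul_zero]
        · rcases hs.owners hX hpi hpX hiX hq with rfl | rfl
          · rw [if_neg hpi]; push_cast; ring
          · rw [if_pos rfl]; push_cast; ring
      rw [sum_congr rfl this, ← mul_sum, hz.col X, if_neg hXK, mul_one]
    have e2 : ∑ X' ∈ Q, ∑ q, (((if q = i then L p * v p X else L q * v i X : ℕ)) : ℝ) * v q X' *
        z q X' = (W : ℝ) * v i X := by
      rw [h.sum, sum_mul]
      refine sum_congr rfl fun X' hX' => ?_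
      rw [sum_mul]
      refine sum_congr rfl fun q _ => ?_
      by_cases hq : q = i
      · rw [hq, hzi X' hX', mul_zero, mul_zero, zero_mul]
      · rw [if_neg hq]; push_cast; ring
    rw [e1, e2]
    push_cast
    ring

/-- the chain grows to the whole of `Y` -/
theorem exists_inside (hk : 1 ≤ k) (hT : T.card + 1 = n * k)
    (hmin : ∀ Y', PY v T k Y' → Y.card ≤ Y'.card) (hz : Sol v Y K z) (hs : Shape v T k Y K z sh)
    (j : ℕ) (hj : j + 1 ≤ Y.card) :
    ∃ L Q W, Inside v T Y z sh L Q W ∧ (univ.filter fun i => L i ≠ 0).card = j + 1 := by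
  classical
  induction j with
  | zero =>
    obtain ⟨r, hr⟩ : Y.Nonempty := by rw [← card_pos]; omega
    have hset : (univ.filter fun q => (if q = r then 1 else 0) ≠ 0) = {r} := by
      ext q
      by_cases hq : q = r <;> simp [hq]
    have hcard : (univ.filter fun q => (if q = r then 1 else 0) ≠ 0).card = 1 := by
      rw [hset, card_singleton]
    refine ⟨fun q => if q = r then 1 else 0, ∅, 0, ⟨Chain.base r, ?_, ?_, ?_, ?_, ?_, ?_⟩, ?_⟩
    · intro i hi
      by_cases h : i = r
      · rw [h]; exact hr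
      · exact absurd (if_neg h) hi
    · rw [hcard, card_empty]
    · intro X hX; exact absurd hX (notMem_empty X)
    · intro X hX; exact absurd hX (notMem_empty X)
    · intro X hX; exact absurd hX (notMem_empty X)
    · rw [sum_empty, Nat.cast_zero]
    · exact hcard
  | succ j ih =>
    obtain ⟨L, Q, W, h, hc⟩ := ih (by omega)
    obtain ⟨X, hX, p, i, hpX, hiX, hp, hi⟩ := h.exists_cross hk hT hmin hz hs (by omega)
    obtain ⟨h', hc'⟩ := h.step hz hs hX hpX hiX hp hi
    exact ⟨_, _, _, h', by rw [hc', hc]⟩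

end

/-- the inequality -/
theorem badChain_of_shape (hn : 3 ≤ n) {v : Fin n → Fin m → ℕ} {T : Finset (Fin m)} {k : ℕ}
    (hk : 1 ≤ k) (hT : T.card + 1 = n * k) {Y : Finset (Fin n)} (hYn : Y.card + 1 ≤ n)
    (hmin : ∀ Y', PY v T k Y' → Y.card ≤ Y'.card)
    {K : Finset (Fin m)} {z : Fin n → Fin m → ℝ} {sh : Finset (Fin m)} (_hK : K ⊆ T)
    (_hKc : K.card + Y.card * k = n * k) (hz : Sol v Y K z) (hs : Shape v T k Y K z sh) :
    BadChain v T k := by
  classical
  have hY1 : 1 ≤ Y.card := by rw [← hs.card]; omega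
  obtain ⟨L, Q, W, h, hc⟩ := exists_inside hk hT hmin hz hs (Y.card - 1) (by omega)
  have hQsh : Q = sh := by
    apply eq_of_subset_of_card_le h.sub
    have h1 := h.card
    have h2 := hs.card
    omega
  have hQT : Q ⊆ T := fun X hX => (mem_sdiff.1 (hs.sub (h.sub X hX))).1
  refine ⟨L, Q, W, h.chain, ?_, fun i => (T \ Q).filter fun o => z i o = 1, ?_, ?_, ?_, ?_⟩
  · have h1 := h.card
    omega
  · intro i j hij
    rw [disjoint_left]
    intro o ho ho'
    exact hij (hz.eq_of_one (mem_filter.1 ho).2 (mem_filter.1 ho').2)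
  · intro i
    exact filter_subset _ _
  · intro i
    refine (card_le_card ?_).trans (hs.few i)
    intro o ho
    obtain ⟨h1, h2⟩ := mem_filter.1 ho
    exact mem_filter.2 ⟨(mem_sdiff.1 h1).1, h2⟩
  · have hn0 : (0 : ℝ) < n := by
      have : 0 < n := by omega
      exact_mod_cast this
    have htv : ∀ i, (tv v i : ℝ) = n * fs v i := by
      intro i
      unfold tv fs
      rw [Nat.cast_sum]
      field_simp
    -- the sum over the agents of the weighted utilities
    have h1 : ∑ i, (L i : ℝ) * fs v i ≤ ∑ i, (L i : ℝ) * ∑ o, (v i o : ℝ) * z i o := by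
      refine sum_le_sum fun i _ => ?_
      by_cases hi : L i = 0
      · rw [hi, Nat.cast_zero, zero_mul, zero_mul]
      · exact mul_le_mul_of_nonneg_left (hz.fair i (h.inY i hi)) (Nat.cast_nonneg _)
    have h2 : ∑ i, (L i : ℝ) * ∑ o, (v i o : ℝ) * z i o =
        ∑ o, ∑ i, (L i : ℝ) * v i o * z i o := by
      rw [sum_comm]
      refine sum_congr rfl fun i _ => ?_
      rw [mul_sum]
      exact sum_congr rfl fun o _ => by ring
    have h3 : ∑ o, ∑ i, (L i : ℝ) * v i o * z i o =
        ∑ o ∈ univ \ T, ∑ i, (L i : ℝ) * v i o * z i o +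
          (∑ o ∈ T \ Q, ∑ i, (L i : ℝ) * v i o * z i o + ∑ o ∈ Q, ∑ i, (L i : ℝ) * v i o * z i o)
        := by
      rw [sum_sdiff hQT, sum_sdiff (subset_univ T)]
    have h4 : ∑ o ∈ univ \ T, ∑ i, (L i : ℝ) * v i o * z i o ≤
        ((∑ o ∈ univ \ T, univ.sup (fun i => L i * v i o) : ℕ) : ℝ) := by
      rw [Nat.cast_sum]
      refine sum_le_sum fun o _ => ?_
      have h5 : ∑ i, (L i : ℝ) * v i o * z i o ≤
          ∑ i, ((univ.sup (fun i => L i * v i o) : ℕ) : ℝ) * z i o := by
        refine sum_le_sum fun i _ => mul_le_mul_of_nonneg_right ?_ (hz.nonneg i o)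
        have h6 : L i * v i o ≤ univ.sup (fun i => L i * v i o) :=
          le_sup (f := fun i => L i * v i o) (mem_univ i)
        exact_mod_cast h6
      refine h5.trans ?_
      rw [← mul_sum]
      exact mul_le_of_le_one_right (Nat.cast_nonneg _) (hz.col_le o)
    have h5 : ∑ o ∈ T \ Q, ∑ i, (L i : ℝ) * v i o * z i o =
        ((∑ i, L i * sv v i ((T \ Q).filter fun o => z i o = 1) : ℕ) : ℝ) := by
      rw [sum_comm, Nat.cast_sum]
      refine sum_congr rfl fun i _ => ?_
      unfold sv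
      rw [Nat.cast_mul, Nat.cast_sum, mul_sum, sum_filter]
      refine sum_congr rfl fun o ho => ?_
      have ho' : o ∉ sh := hQsh ▸ (mem_sdiff.1 ho).2
      rcases hs.whole o ho' i with h6 | h6
      · rw [h6, mul_zero, if_neg (by norm_num)]
      · rw [h6, mul_one, if_pos rfl]
    have h6 : ((∑ i, L i * tv v i : ℕ) : ℝ) ≤
        ((n * (W + ∑ o ∈ univ \ T, univ.sup (fun i => L i * v i o) +
          ∑ i, L i * sv v i ((T \ Q).filter fun o => z i o = 1)) : ℕ) : ℝ) := by
      have h7 : ((∑ i, L i * tv v i : ℕ) : ℝ) = n * ∑ i, (L i : ℝ) * fs v i := by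
        rw [Nat.cast_sum, mul_sum]
        refine sum_congr rfl fun i _ => ?_
        rw [Nat.cast_mul, htv i]
        ring
      rw [h7, Nat.cast_mul, Nat.cast_add, Nat.cast_add]
      refine mul_le_mul_of_nonneg_left ?_ hn0.le
      rw [← h5, h.sum]
      linarith
    exact_mod_cast h6

end Pool.Agent.FairDivA
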