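import Pool.Agent.Lib_MP_42f051_alg.Alg
import Pool.Agent.Lib_MP_b5064f_t3.FPBasic

/-!
# PROP-SharedObj(n, n - 2): acceptance and the set `T` in the calculus
-/

namespace Pool.Agent.FairDivA

open Pool.Agent.PartSep.TM Pool.Agent.PartSep.TM.Rep Pool.Agent.Lib_MP_8cd8c6_lc
open Pool.Agent.Spanner3

set_option synthInstance.maxSize 2000

variable {E : Type} [Rep E]

theorem filter_div_length (n l : ℕ) (hn : 0 < n) :
    ((List.range l).filter fun j => decide (n * (j + 1) ≤ l)).length = l / n := by
  have h : ∀ l' : ℕ, ((List.range l').filter fun j => decide (n * (j + 1) ≤ l)).length =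
      min l' (l / n) := by
    intro l'
    induction l' with
    | zero => simp
    | succ k ih =>
      rw [List.range_succ, List.filter_append, List.length_append, ih]
      by_cases h1 : n * (k + 1) ≤ l
      · have h2 : k + 1 ≤ l / n := (Nat.le_div_iff_mul_le hn).2 (by rw [Nat.mul_comm]; exact h1)
        simp only [List.filter_cons, List.filter_nil, h1, decide_true, if_true, List.length_cons,
          List.length_nil]
        omega
      · have h2 : ¬ k + 1 ≤ l / n := fun h => h1 (by
          have := (Nat.le_div_iff_mul_le hn).1 h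
          rwa [Nat.mul_comm] at this)
        simp only [List.filter_cons, List.filter_nil, h1, decide_false, Bool.false_eq_true,
          if_false, List.length_nil]
        omega
  rw [h l]
  exact min_eq_right (Nat.div_le_self l n)

/-- division by a constant -/
theorem fp_divConst (n : ℕ) {f : E → ℕ} (hf : FP f) : FP (fun x => f x / n) := by
  rcases Nat.eq_zero_or_pos n with rfl | hn
  · exact (FP.const 0).congr (fun x => (Nat.div_zero _).symm)
  · refine (FP.lengthE (fp_filter (FP.range hf)
      (p := fun z : E × ℕ => decide (n * (z.2 + 1) ≤ f z.1))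
      (FP.natLe (FP.mulConst (FP.addConst FP.snd 1) n) (FP.comp hf FP.fst)))).congr (fun x => ?_)
    exact filter_div_length n (f x) hn

theorem fp_mB (n : ℕ) {y : E → List BN} (hy : FP y) : FP (fun x => mB n (y x)) :=
  fp_divConst n (FP.lengthE hy)

theorem fp_gv (n : ℕ) {y : E → List BN} (hy : FP y) {i o : E → ℕ} (hi : FP i) (ho : FP o) :
    FP (fun x => gv n (y x) (i x) (o x)) :=
  FP.getE hy (FP.add (FP.mul hi (fp_mB n hy)) ho) ⟨0⟩

theorem fp_svB (n : ℕ) {y : E → List BN} (hy : FP y) {i : E → ℕ} (hi : FP i) {R : E → List ℕ}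
    (hR : FP R) : FP (fun x => svB n (y x) (i x) (R x)) :=
  FP.bSum hR (g := fun z : E × ℕ => gv n (y z.1) (i z.1) z.2)
    (fp_gv n (FP.comp hy FP.fst) (FP.comp hi FP.fst) FP.snd)

theorem fp_tvB (n : ℕ) {y : E → List BN} (hy : FP y) {i : E → ℕ} (hi : FP i) :
    FP (fun x => tvB n (y x) (i x)) :=
  fp_svB n hy hi (FP.range (fp_mB n hy))

theorem fp_accB (n : ℕ) {y : E → List BN} (hy : FP y) {R : E → List ℕ} (hR : FP R) :
    FP (fun x => accB n (y x) (R x)) := by
  refine fp_any (List.range n) fun i => ?_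
  have h1 : FP (fun x => tvB n (y x) i) := fp_tvB n hy (FP.const i)
  have h2 : FP (fun x => (⟨n * (svB n (y x) i (R x)).val⟩ : BN)) :=
    FP.bMul (FP.const (⟨n⟩ : BN)) (fp_svB n hy (FP.const i) hR)
  exact FP.bLe h1 h2

theorem fp_jB (n : ℕ) {y : E → List BN} (hy : FP y) : FP (fun x => jB n (y x)) :=
  FP.lengthE (fp_filter (FP.range (FP.addConst (fp_mB n hy) 1))
    (p := fun z : E × ℕ => !accB n (y z.1) (List.range z.2))
    (FP.not (fp_accB n (FP.comp hy FP.fst) (FP.range FP.snd))))

theorem fp_inT (n : ℕ) {y : E → List BN} (hy : FP y) {o : E → ℕ} (ho : FP o) :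
    FP (fun x => inT n (y x) (o x)) := by
  have hj := fp_jB n hy
  refine FP.ite (FP.natLt (FP.addConst ho 1) hj) ?_ (FP.ite (FP.natEq (FP.addConst ho 1) hj)
    (FP.const true) ?_)
  · exact FP.not (fp_accB n hy (fp_filter (FP.range hj)
      (p := fun z : E × ℕ => !decide (z.2 = o z.1))
      (FP.not (FP.natEq FP.snd (FP.comp ho FP.fst)))))
  · exact fp_accB n hy (FP.consE ho (FP.range (FP.pred hj)))

theorem fp_TB (n : ℕ) {y : E → List BN} (hy : FP y) : FP (fun x => TB n (y x)) :=
  fp_filter (FP.range (fp_mB n hy)) (p := fun z : E × ℕ => inT n (y z.1) z.2)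
    (fp_inT n (FP.comp hy FP.fst) FP.snd)

theorem fp_kB (n : ℕ) {y : E → List BN} (hy : FP y) : FP (fun x => kB n (y x)) :=
  fp_divConst n (FP.addConst (FP.lengthE (fp_TB n hy)) 1)

end Pool.Agent.FairDivA
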