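import Pool.Agent.Lib_MP_42f051_alg.Alg
import Pool.Agent.Lib_MP_b5064f_t3.FPBasic

set_option autoImplicit false

/-!
# PROP-SharedObj(n, n - 2): the test `badB` is computed in polynomial time
-/

namespace Pool.Agent.FairDivA

open Pool.Agent.PartSep.TM Pool.Agent.PartSep.TM.Rep Pool.Agent.Lib_MP_8cd8c6_lc
open Pool.Agent.Spanner3

set_option synthInstance.maxSize 2000

variable {E : Type} [Rep E]

/-- the weight of an agent -/
theorem fp_gL_bad {L : E → List BN} (hL : FP L) {q : E → ℕ} (hq : FP q) :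
    FP (fun x => gL (L x) (q x)) := FP.getE hL hq ⟨0⟩

section

variable (n : ℕ)
  (hm : ∀ {E : Type} [Rep E] {y : E → List BN}, FP y → FP (fun x => mB n (y x)))
  (hgv : ∀ {E : Type} [Rep E] {y : E → List BN} {i o : E → ℕ},
    FP y → FP i → FP o → FP (fun x => gv n (y x) (i x) (o x)))
  (htv : ∀ {E : Type} [Rep E] {y : E → List BN} {i : E → ℕ},
    FP y → FP i → FP (fun x => tvB n (y x) (i x)))
  (hin : ∀ {E : Type} [Rep E] {y : E → List BN} {o : E → ℕ},
    FP y → FP o → FP (fun x => inT n (y x) (o x)))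
  (hTB : ∀ {E : Type} [Rep E] {y : E → List BN}, FP y → FP (fun x => TB n (y x)))
  (hkB : ∀ {E : Type} [Rep E] {y : E → List BN}, FP y → FP (fun x => kB n (y x)))

include hgv in
/-- the weighted value of an object -/
theorem fp_wv {y L : E → List BN} (hy : FP y) (hL : FP L) {i o : E → ℕ} (hi : FP i)
    (ho : FP o) :
    FP (fun x => (⟨(gL (L x) (i x)).val * (gv n (y x) (i x) (o x)).val⟩ : BN)) :=
  FP.bMul (fp_gL_bad hL hi) (hgv hy hi ho)

include hgv in
theorem fp_mxB {y L : E → List BN} (hy : FP y) (hL : FP L) {o : E → ℕ} (ho : FP o) :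
    FP (fun x => mxB n (y x) (L x) (o x)) := by
  have hg : FP (fun z : E × ℕ =>
      (⟨(gL (L z.1) z.2).val * (gv n (y z.1) z.2 (o z.1)).val⟩ : BN)) :=
    fp_wv n @hgv (FP.comp hy FP.fst) (FP.comp hL FP.fst) FP.snd (FP.comp ho FP.fst)
  obtain ⟨pg, hpg⟩ := hg.size_le
  have hw : FP (fun z : E × BN × ℕ =>
      (⟨(gL (L z.1) z.2.2).val * (gv n (y z.1) z.2.2 (o z.1)).val⟩ : BN)) :=
    fp_wv n @hgv (FP.comp hy FP.fst) (FP.comp hL FP.fst) (FP.comp FP.snd FP.snd) (FP.comp ho FP.fst)
  have h3 := FP.foldlE_growth (l := fun _ : E => List.range n) (FP.const _)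
    (init := fun _ => (⟨0⟩ : BN)) (FP.const _)
    (step := fun z : E × BN × ℕ =>
      if decide (z.2.1.val ≤ (gL (L z.1) z.2.2).val * (gv n (y z.1) z.2.2 (o z.1)).val) then
        (⟨(gL (L z.1) z.2.2).val * (gv n (y z.1) z.2.2 (o z.1)).val⟩ : BN) else z.2.1)
    (FP.ite (FP.bLe (FP.comp FP.fst FP.snd) hw) hw (FP.comp FP.fst FP.snd))
    (pg.comp (Polynomial.X + Polynomial.C n)) (by
      intro x s i hi
      have e7 : size (⟨(gL (L x) i).val * (gv n (y x) i (o x)).val⟩ : BN) ≤
        pg.eval (size (x, i)) := hpg (x, i)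
      have e8 : size (x, i) ≤ size x + n := by
        rw [size_pair, size_nat]
        have := List.mem_range.1 hi
        simp only
        omega
      have e9 := poly_mono pg e8
      simp only [Polynomial.eval_comp, Polynomial.eval_add, Polynomial.eval_X,
        Polynomial.eval_C]
      have e10 := e7.trans e9
      split_ifs
      · exact e10.trans (Nat.le_add_left _ _)
      · exact Nat.le_add_right _ _)
  exact h3.congr (fun x => rfl)

include hgv hTB in
theorem fp_rowsB {y : E → List BN} (hy : FP y) {c : E → Cand} (hc : FP c) :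
    FP (fun x => rowsB n (y x) (c x)) := by
  have h1 : FP (fun x => (TB n (y x)).filter fun o =>
      !((c x).2.1.any fun q => decide (q = o))) := by
    refine fp_filter (hTB hy) (p := fun z : E × ℕ =>
      !((c z.1).2.1.any fun q => decide (q = z.2))) (FP.not ?_)
    exact fp_anyE (FP.comp FP.fst (FP.comp FP.snd (FP.comp hc FP.fst)))
      (p := fun w : (E × ℕ) × ℕ => decide (w.2 = w.1.2))
      (FP.natEq FP.snd (FP.comp FP.snd FP.fst))
  refine FP.mapE h1 (g := fun z : E × ℕ => (List.range n).map fun i =>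
    (⟨(gL (c z.1).1 i).val * (gv n (y z.1) i z.2).val⟩ : BN)) ?_
  exact FP.mapE (l := fun _ : E × ℕ => List.range n) (FP.const _)
    (g := fun w : (E × ℕ) × ℕ =>
      (⟨(gL (c w.1.1).1 w.2).val * (gv n (y w.1.1) w.2 w.1.2).val⟩ : BN))
    (fp_wv n @hgv (FP.comp hy (FP.comp FP.fst FP.fst))
      (FP.comp (FP.comp FP.fst hc) (FP.comp FP.fst FP.fst)) FP.snd (FP.comp FP.snd FP.fst))

include htv in
theorem fp_demB {y : E → List BN} (hy : FP y) {c : E → Cand} (hc : FP c) :
    FP (fun x => demB n (y x) (c x)) :=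
  FP.bSum (l := fun _ : E => List.range n) (FP.const _)
    (g := fun z : E × ℕ => (⟨(gL (c z.1).1 z.2).val * (tvB n (y z.1) z.2).val⟩ : BN))
    (FP.bMul (fp_gL_bad (FP.comp (FP.comp FP.fst hc) FP.fst) FP.snd)
      (htv (FP.comp hy FP.fst) FP.snd))

include hm hgv hin in
theorem fp_supB {y : E → List BN} (hy : FP y) {c : E → Cand} (hc : FP c) :
    FP (fun x => supB n (y x) (c x)) := by
  have h1 : FP (fun x => (List.range (mB n (y x))).filter fun o => !inT n (y x) o) :=
    fp_filter (FP.range (hm hy)) (p := fun z : E × ℕ => !inT n (y z.1) z.2)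
      (FP.not (hin (FP.comp hy FP.fst) FP.snd))
  have h2 := FP.bSum h1 (g := fun z : E × ℕ => mxB n (y z.1) (c z.1).1 z.2)
    (fp_mxB n @hgv (FP.comp hy FP.fst) (FP.comp (FP.comp FP.fst hc) FP.fst) FP.snd)
  exact FP.bAdd (FP.comp FP.snd (FP.comp FP.snd hc)) h2

include hm hgv htv hin hTB hkB in
/-- The test for bad chains. -/
theorem fp_badB {dp : ℕ → List (List BN) → BN}
    (hdp : FP (fun z : ℕ × List (List BN) => dp z.1 z.2)) {y : E → List BN} (hy : FP y)
    {c : E → Cand} (hc : FP c) : FP (fun x => badB dp n (y x) (c x)) := by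
  have h1 : FP (fun x => dp (kB n (y x) - 1) (rowsB n (y x) (c x))) :=
    FP.comp hdp (FP.pair (FP.pred (hkB hy)) (fp_rowsB n @hgv @hTB hy hc))
  exact FP.bLe (fp_demB n @htv hy hc)
    (FP.bMul (FP.const (⟨n⟩ : BN)) (FP.bAdd (fp_supB n @hm @hgv @hin hy hc) h1))

end

end Pool.Agent.FairDivA
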