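import Pool.Agent.Lib_MP_42f051_alg.Alg
import Pool.Agent.Lib_MP_8cd8c6_lc.FPExtra

/-!
# PROP-SharedObj(n, n - 2): the list of the chains is computed in polynomial time
-/

namespace Pool.Agent.FairDivA

open Pool.Agent.PartSep Pool.Agent.PartSep.TM Pool.Agent.PartSep.TM.Rep
  Pool.Agent.Lib_MP_8cd8c6_lc

set_option synthInstance.maxSize 2000

variable {E : Type} [Rep E]

theorem fpc_gL {L : E → List BN} (hL : FP L) {q : E → ℕ} (hq : FP q) :
    FP (fun x => gL (L x) (q x)) := FP.getE hL hq _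

theorem fpc_isZero {f : E → BN} (hf : FP f) : FP (fun x => decide ((f x).val = 0)) :=
  (FP.bEq hf (FP.const (⟨0⟩ : BN))).congr (fun _ => rfl)

theorem fpc_memN {l : E → List ℕ} (hl : FP l) {X : E → ℕ} (hX : FP X) :
    FP (fun x => (l x).any fun q => decide (q = X x)) := by
  refine (FP.not (fp_allE hl (p := fun z : E × ℕ => !(decide (z.2 = X z.1)))
    (FP.not (FP.natEq FP.snd (FP.comp hX FP.fst))))).congr (fun x => ?_)
  simp only
  induction l x with
  | nil => rfl
  | cons a t ih =>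
    simp only [List.all_cons, List.any_cons, Bool.not_and, Bool.not_not] at ih ⊢
    rw [ih]

section
variable (n : ℕ) (hgv : ∀ {E : Type} [Rep E] {y : E → List BN} {i o : E → ℕ},
  FP y → FP i → FP o → FP (fun x => gv n (y x) (i x) (o x)))
include hgv

theorem fpc_newL {y : E → List BN} (hy : FP y) {L : E → List BN} (hL : FP L) {i p X : E → ℕ}
    (hi : FP i) (hp : FP p) (hX : FP X) :
    FP (fun x => newL n (y x) (L x) (i x) (p x) (X x)) := by
  refine FP.mapE (FP.const (List.range n)) (g := fun z : E × ℕ => if decide (z.2 = i z.1) then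
    (⟨(gL (L z.1) (p z.1)).val * (gv n (y z.1) (p z.1) (X z.1)).val⟩ : BN)
    else ⟨(gL (L z.1) z.2).val * (gv n (y z.1) (i z.1) (X z.1)).val⟩) ?_
  exact FP.ite (FP.natEq FP.snd (FP.comp hi FP.fst))
    (FP.bMul (FP.comp (fpc_gL hL hp) FP.fst) (FP.comp (hgv hy hp hX) FP.fst))
    (FP.bMul (fpc_gL (FP.comp hL FP.fst) FP.snd) (FP.comp (hgv hy hi hX) FP.fst))

theorem fpc_okB {y : E → List BN} (hy : FP y) {c : E → Cand} (hc : FP c) {i p X : E → ℕ}
    (hi : FP i) (hp : FP p) (hX : FP X) :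
    FP (fun x => okB n (y x) (c x) (i x) (p x) (X x)) := by
  have hL : FP (fun x => (c x).1) := FP.comp FP.fst hc
  have hQ : FP (fun x => (c x).2.1) := FP.comp FP.fst (FP.comp FP.snd hc)
  exact FP.and (FP.and (FP.and (FP.and (FP.not (fpc_memN hQ hX))
    (FP.not (fpc_isZero (fpc_gL hL hp)))) (fpc_isZero (fpc_gL hL hi)))
    (FP.not (fpc_isZero (hgv hy hi hX)))) (FP.not (fpc_isZero (hgv hy hp hX)))

theorem fpc_stepB {y : E → List BN} (hy : FP y) {c : E → Cand} (hc : FP c) {i p X : E → ℕ}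
    (hi : FP i) (hp : FP p) (hX : FP X) :
    FP (fun x => stepB n (y x) (c x) (i x) (p x) (X x)) := by
  have hL : FP (fun x => (c x).1) := FP.comp FP.fst hc
  have hQ : FP (fun x => (c x).2.1) := FP.comp FP.fst (FP.comp FP.snd hc)
  have hW : FP (fun x => (c x).2.2) := FP.comp FP.snd (FP.comp FP.snd hc)
  refine FP.pair (fpc_newL n hgv hy hL hi hp hX) (FP.pair (FP.consE hX hQ) ?_)
  exact FP.bAdd (FP.bMul hW (hgv hy hi hX))
    (FP.bMul (FP.bMul (fpc_gL hL hp) (hgv hy hp hX)) (hgv hy hi hX))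

theorem fpc_extB {y : E → List BN} (hy : FP y) {T : E → List ℕ} (hT : FP T) {c : E → Cand}
    (hc : FP c) : FP (fun x => extB n (y x) (T x) (c x)) := by
  refine FP.flatMapE hT (g := fun z : E × ℕ => (List.range n).flatMap fun p =>
    (List.range n).flatMap fun i =>
      if okB n (y z.1) (c z.1) i p z.2 then [stepB n (y z.1) (c z.1) i p z.2] else []) ?_
  refine FP.flatMapE (FP.const (List.range n)) (g := fun z : (E × ℕ) × ℕ =>
    (List.range n).flatMap fun i =>
      if okB n (y z.1.1) (c z.1.1) i z.2 z.1.2 then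
        [stepB n (y z.1.1) (c z.1.1) i z.2 z.1.2] else []) ?_
  refine FP.flatMapE (FP.const (List.range n)) (g := fun z : ((E × ℕ) × ℕ) × ℕ =>
      if okB n (y z.1.1.1) (c z.1.1.1) z.2 z.1.2 z.1.1.2 then
        [stepB n (y z.1.1.1) (c z.1.1.1) z.2 z.1.2 z.1.1.2] else []) ?_
  have e1 : FP (fun z : ((E × ℕ) × ℕ) × ℕ => z.1.1.1) := FP.comp FP.fst (FP.comp FP.fst FP.fst)
  have e2 : FP (fun z : ((E × ℕ) × ℕ) × ℕ => z.1.1.2) := FP.comp FP.snd (FP.comp FP.fst FP.fst)
  have e3 : FP (fun z : ((E × ℕ) × ℕ) × ℕ => z.1.2) := FP.comp FP.snd FP.fst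
  exact FP.ite (fpc_okB n hgv (FP.comp hy e1) (FP.comp hc e1) FP.snd e3 e2)
    (FP.consE (fpc_stepB n hgv (FP.comp hy e1) (FP.comp hc e1) FP.snd e3 e2) (FP.const []))
    (FP.const [])

theorem fpc_candsB (hTB : ∀ {E : Type} [Rep E] {y : E → List BN}, FP y → FP (fun x => TB n (y x)))
    {y : E → List BN} (hy : FP y) (j : ℕ) : FP (fun x => candsB n (y x) j) := by
  induction j with
  | zero => exact FP.const (cands0 n)
  | succ j ih =>
    exact FP.flatMapE ih (g := fun z : E × Cand => extB n (y z.1) (TB n (y z.1)) z.2)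
      (fpc_extB n hgv (FP.comp hy FP.fst) (hTB (FP.comp hy FP.fst)) FP.snd)

end

end Pool.Agent.FairDivA
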