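import Pool.Agent.Lib_MP_42f051_alg.FPMain
import Pool.Agent.Lib_MP_42f051_alg.FPAcc
import Pool.Agent.Lib_MP_42f051_alg.FPCand
import Pool.Agent.Lib_MP_42f051_alg.FPBad
import Pool.Agent.Lib_MP_42f051_dp.DP

/-!
# PROP-SharedObj(n, n - 2): the algorithm runs in polynomial time
-/

namespace Pool.Agent.FairDivA

open Pool.Agent.PartSep.TM Pool.Agent.PartSep.TM.Rep

set_option synthInstance.maxSize 2000

theorem fp_algo_dp (n : ℕ) : FP (fun y : List BN => algo (FairDivDP.dp n) n y) := by
  refine fp_algo (fp_jB n FP.id) (fp_TB n FP.id) (fp_kB n FP.id) (fun j => ?_) ?_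
  · exact fpc_candsB n (fun hy hi ho => fp_gv n hy hi ho) (fun hy => fp_TB n hy) FP.id j
  · exact fp_badB n (fun hy => fp_mB n hy) (fun hy hi ho => fp_gv n hy hi ho)
      (fun hy hi => fp_tvB n hy hi) (fun hy ho => fp_inT n hy ho) (fun hy => fp_TB n hy)
      (fun hy => fp_kB n hy) (dp := FairDivDP.dp n)
      (FairDivDP.FP.dp (K := fun z : ℕ × List (List BN) => z.1)
        (W := fun z : ℕ × List (List BN) => z.2) FP.fst FP.snd n) FP.fst FP.snd

/-- The algorithm is computed by a polynomial time Turing machine. -/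
theorem isPolyTime_algo_dp (n : ℕ) :
    N68a2faeb.IsPolyTime (fun y : List ℕ => algo (FairDivDP.dp n) n (y.map BN.mk)) :=
  isPolyTime_algo (fp_algo_dp n)

end Pool.Agent.FairDivA
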