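import Pool.Agent.Lib_MP_42f051_alg.Alg
import Pool.Agent.Lib_MP_42fe4d_lc.TM.ToTM2
import Pool.Agent.Lib_MP_b5064f_t3.FPBasic
import Pool.Prelude.Def_F_458e953d

/-!
# PROP-SharedObj(n, n - 2): from the calculus of polynomial time functions to the TM2 machine
-/

namespace Pool.Agent.FairDivA

open Pool.Agent.PartSep.TM Computability
open Pool.Agent.PartSep.TM.Rep N487b59b3 Pool.Agent.Lib_MP_8cd8c6_lc Pool.Agent.Spanner3

set_option synthInstance.maxSize 2000

variable {E : Type} [Rep E]

/-- the list of numbers with a given code -/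
def parseBN (s : List Sym) : List BN := (splitB s).map fun w => ⟨valS w⟩

theorem parseBN_code (y : List ℕ) : parseBN ((bitEncode y).map bs) = y.map BN.mk := by
  unfold parseBN
  rw [bitEncode_list, ← List.flatMap_map (f := fun a : ℕ => (bitEncode a).map bs) (g := del),
    splitB_flatMap, List.map_map]
  refine List.map_congr_left fun a _ => ?_
  exact congrArg BN.mk (valS_bcode a)

theorem fp_parseBN {s : E → List Sym} (hs : FP s) : FP (fun x => parseBN (s x)) :=
  FP.mapE (FP.splitB hs) (g := fun y : E × List Sym => (⟨valS y.2⟩ : BN)) (FP.ofBits FP.snd)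

/-- The algorithm is in the calculus if its parts are. -/
theorem fp_algo {n : ℕ} {dp : ℕ → List (List BN) → BN}
    (hj : FP (fun y : List BN => jB n y)) (hT : FP (fun y : List BN => TB n y))
    (hk : FP (fun y : List BN => kB n y))
    (hc : ∀ j, FP (fun y : List BN => candsB n y j))
    (hb : FP (fun x : List BN × Cand => badB dp n x.1 x.2)) :
    FP (fun y : List BN => algo dp n y) := by
  unfold algo
  refine FP.or (FP.or (FP.natEq hj (FP.const 0)) (FP.not (FP.natEq (FP.mulConst hk n)
    (FP.addConst (FP.lengthE hT) 1)))) ?_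
  exact fp_any (List.range (n - 1)) fun j => fp_anyE (hc j)
    (p := fun x : List BN × Cand => badB dp n x.1 x.2) hb

/-- The algorithm is computed by a polynomial time machine. -/
theorem isPolyTime_algo {n : ℕ} {dp : ℕ → List (List BN) → BN}
    (h : FP (fun y : List BN => algo dp n y)) :
    N68a2faeb.IsPolyTime (fun y : List ℕ => algo dp n (y.map BN.mk)) := by
  refine FP.toTM2 (αΓ := Bool) (βΓ := Bool) bs sb bs sb_bs
    (f := fun s => [bs (algo dp n (parseBN s))])
    (FP.bsOf (FP.comp h (fp_parseBN FP.id))) (fun y => ?_)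
  change [bs (algo dp n (parseBN ((bitEncode y).map bs)))] = _
  rw [parseBN_code]
  rfl

end Pool.Agent.FairDivA
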