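import Pool.Agent.Lib_MP_42f051_alg.Chain
import Pool.Agent.Lib_MP_42f051_lc_p.Cert
import Pool.Agent.Lib_MP_42f051_lc_p.Edges
import Pool.Agent.Lib_MP_42f051_lc_p.Heavy

/-!
# A bad chain from a set of agents that can be satisfied

If the agents of a nonempty set `L` can be satisfied from the objects outside a set `K ⊆ T` with
`(n - |L|) k` elements, then there is a bad chain.
-/

namespace Pool.Agent.FairDivA

open Finset Pool.Agent.FairDivP

variable {n m : ℕ}

namespace YB

/-- A solution for the agents `L` and the objects outside `K`, with small support. -/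
structure Sol (v : Fin n → Fin m → ℕ) (L : Finset (Fin n)) (K : Finset (Fin m))
    (z : Fin n → Fin m → ℝ) : Prop where
  nonneg : ∀ i o, 0 ≤ z i o
  out : ∀ i o, i ∉ L → z i o = 0
  zeroK : ∀ i o, o ∈ K → z i o = 0
  col : ∀ o, o ∉ K → ∑ i, z i o = 1
  acc : ∀ i ∈ L, FairDivP.Acc v i (z i)
  few : (univ.filter fun p : Fin n × Fin m => z p.1 p.2 ≠ 0).card + 1 ≤ L.card + Kᶜ.card
  pos : ∀ i o, z i o ≠ 0 → z i o ≠ 1 → 0 < v i o

theorem exists_sol (v : Fin n → Fin m → ℕ) {L : Finset (Fin n)} (hL : L.Nonempty)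
    {K : Finset (Fin m)} (h : SatSet v L K) : ∃ z, Sol v L K z := by
  classical
  obtain ⟨z0, hz0, hz1, hz2⟩ := h
  obtain ⟨r, hr⟩ := hL
  have : Nonempty {i // i ∈ L} := ⟨⟨r, hr⟩⟩
  let z1 : {i // i ∈ L} → {o // o ∉ K} → ℝ := fun i o =>
    z0 i o + if (i : Fin n) = r then 1 - ∑ j ∈ L, z0 j o else 0
  have hle : ∀ o : {o // o ∉ K}, ∑ j ∈ L, z0 j o ≤ 1 := by
    intro o
    have := hz1 o
    rwa [if_neg o.2] at this
  have g0 : ∀ i o, 0 ≤ z1 i o := by
    intro i o
    have h1 := hz0 i o
    have h2 := hle o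
    change 0 ≤ z0 i o + (if (i : Fin n) = r then 1 - ∑ j ∈ L, z0 j o else 0)
    split_ifs <;> linarith
  have g1 : ∀ o, ∑ i, z1 i o = 1 := by
    intro o
    change ∑ i : {i // i ∈ L}, (z0 i o + (if (i : Fin n) = r then 1 - ∑ j ∈ L, z0 j o else 0)) = 1
    rw [sum_add_distrib, sum_coe_sort L (fun i => z0 i o),
      sum_coe_sort L (fun i => if i = r then 1 - ∑ j ∈ L, z0 j o else 0), sum_ite_eq' L r, if_pos hr]
    ring
  obtain ⟨z', hb, hs, hp⟩ := few_edges (v := fun (i : {i // i ∈ L}) (o : {o // o ∉ K}) =>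
    (v i o : ℝ)) (fun i o => Nat.cast_nonneg _) g0 g1
  let z : Fin n → Fin m → ℝ := fun i o =>
    if hi : i ∈ L then (if ho : o ∉ K then z' ⟨i, hi⟩ ⟨o, ho⟩ else 0) else 0
  have e1 : ∀ (i : {i // i ∈ L}) (o : {o // o ∉ K}), z i o = z' i o := by
    intro i o
    simp only [z]
    rw [dif_pos i.2, dif_pos o.2]
  have e2 : ∀ i o, i ∉ L → z i o = 0 := fun i o hi => dif_neg hi
  have e3 : ∀ i o, o ∈ K → z i o = 0 := by
    intro i o ho
    by_cases hi : i ∈ L
    · simp only [z]
      rw [dif_pos hi, dif_neg (not_not.2 ho)]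
    · exact e2 i o hi
  refine ⟨z, ?_, e2, e3, ?_, ?_, ?_, ?_⟩
  · intro i o
    by_cases hi : i ∈ L
    · by_cases ho : o ∈ K
      · rw [e3 i o ho]
      · rw [e1 ⟨i, hi⟩ ⟨o, ho⟩]; exact hb.nonneg _ _
    · rw [e2 i o hi]
  · intro o ho
    rw [← sum_subset (subset_univ L) (fun i _ hi => e2 i o hi), ← sum_coe_sort L]
    rw [← hb.col ⟨o, ho⟩]
    exact sum_congr rfl fun i _ => e1 i ⟨o, ho⟩
  · intro i hi
    have h1 := hz2 i hi
    unfold FairDivP.Acc at h1 ⊢
    refine h1.trans ?_
    have hK : ∀ o ∈ K, z0 i o = 0 := by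
      intro o ho
      have h2 := hz1 o
      rw [if_pos ho] at h2
      have h3 := single_le_sum (f := fun j => z0 j o) (fun j _ => hz0 j o) hi
      exact le_antisymm (h3.trans h2) (hz0 i o)
    have h4 : ∑ o, (v i o : ℝ) * z0 i o = ∑ o : {o // o ∉ K}, (v i o : ℝ) * z0 i o := by
      rw [← sum_subset (subset_univ Kᶜ) (fun o _ ho => by
        rw [hK o (by simpa using ho), mul_zero])]
      exact (sum_subtype Kᶜ (fun o => mem_compl) (fun o => (v i o : ℝ) * z0 i o))
    have h5 : ∑ o, (v i o : ℝ) * z i o = ∑ o : {o // o ∉ K}, (v i o : ℝ) * z' ⟨i, hi⟩ o := by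
      rw [← sum_subset (subset_univ Kᶜ) (fun o _ ho => by
        rw [e3 i o (by simpa using ho), mul_zero])]
      rw [sum_subtype Kᶜ (p := fun o => o ∉ K) (fun o => mem_compl)
        (fun o => (v i o : ℝ) * z i o)]
      exact sum_congr rfl fun o _ => by rw [← e1 ⟨i, hi⟩ o]
    rw [h4, h5]
    refine le_trans ?_ (hb.le ⟨i, hi⟩)
    refine sum_le_sum fun o _ => mul_le_mul_of_nonneg_left ?_ (Nat.cast_nonneg _)
    change z0 i o ≤ z0 i o + (if i = r then 1 - ∑ j ∈ L, z0 j o else 0)
    have := hle o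
    split_ifs <;> linarith
  · have hc1 : Fintype.card {i // i ∈ L} = L.card := Fintype.card_coe L
    have hc2 : Fintype.card {o // o ∉ K} = Kᶜ.card := by
      rw [Fintype.card_subtype]
      congr 1
      ext o
      simp
    rw [hc1, hc2] at hs
    refine le_trans (Nat.add_le_add_right ?_ 1) hs
    refine (card_le_card_of_injOn (t := (supp z').map
      ⟨fun p : {i // i ∈ L} × {o // o ∉ K} => ((p.1 : Fin n), (p.2 : Fin m)), ?_⟩) id ?_
      (Set.injOn_id _)).trans (card_map _).le
    · rintro ⟨⟨a, _⟩, ⟨b, _⟩⟩ ⟨⟨a', _⟩, ⟨b', _⟩⟩ hab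
      simp only [Prod.mk.injEq] at hab
      obtain ⟨rfl, rfl⟩ := hab
      rfl
    · rintro ⟨i, o⟩ hio
      have hio' : z i o ≠ 0 := by simpa using hio
      have hi : i ∈ L := by by_contra hi; exact hio' (e2 i o hi)
      have ho : o ∉ K := fun ho => hio' (e3 i o ho)
      rw [e1 ⟨i, hi⟩ ⟨o, ho⟩] at hio'
      simp only [id, coe_map, Set.mem_image, mem_coe, mem_supp]
      exact ⟨(⟨i, hi⟩, ⟨o, ho⟩), hio', rfl⟩
  · intro i o h1 h2
    have hi : i ∈ L := by by_contra hi; exact h1 (e2 i o hi)
    have ho : o ∉ K := fun ho => h1 (e3 i o ho)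
    rw [e1 ⟨i, hi⟩ ⟨o, ho⟩] at h1 h2
    exact_mod_cast hp _ _ h1 h2

section main

variable {v : Fin n → Fin m → ℕ} {L : Finset (Fin n)} {K : Finset (Fin m)} {z : Fin n → Fin m → ℝ}

/-- the owners of the object `o` -/
noncomputable def own (z : Fin n → Fin m → ℝ) (o : Fin m) : Finset (Fin n) :=
  univ.filter fun i => z i o ≠ 0

/-- the shared objects -/
noncomputable def shared (z : Fin n → Fin m → ℝ) : Finset (Fin m) :=
  univ.filter fun o => 2 ≤ (own z o).card

/-- the whole objects of `T` which belong to `i` -/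
noncomputable def whole (T : Finset (Fin m)) (z : Fin n → Fin m → ℝ) (i : Fin n) :
    Finset (Fin m) := by
  classical
  exact T.filter fun o => z i o = 1

theorem mem_own {i : Fin n} {o : Fin m} : i ∈ own z o ↔ z i o ≠ 0 := by simp [own]

theorem mem_shared {o : Fin m} : o ∈ shared z ↔ 2 ≤ (own z o).card := by simp [shared]

theorem mem_whole {T : Finset (Fin m)} {i : Fin n} {o : Fin m} :
    o ∈ whole T z i ↔ o ∈ T ∧ z i o = 1 := by
  classical
  simp [whole]

namespace Sol

theorem le_one (h : Sol v L K z) (i : Fin n) (o : Fin m) : z i o ≤ 1 := by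
  by_cases ho : o ∈ K
  · rw [h.zeroK i o ho]; exact zero_le_one
  · rw [← h.col o ho]
    exact single_le_sum (f := fun i => z i o) (fun j _ => h.nonneg j o) (mem_univ i)

theorem sum_le_one (h : Sol v L K z) (C : Finset (Fin n)) (o : Fin m) : ∑ i ∈ C, z i o ≤ 1 := by
  have h1 : ∑ i ∈ C, z i o ≤ ∑ i, z i o :=
    sum_le_sum_of_subset_of_nonneg (subset_univ C) (fun j _ _ => h.nonneg j o)
  by_cases ho : o ∈ K
  · have : ∑ i, z i o = 0 := sum_eq_zero fun i _ => h.zeroK i o ho
    linarith
  · rw [h.col o ho] at h1; exact h1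

theorem notK (h : Sol v L K z) {i : Fin n} {o : Fin m} (hz : z i o ≠ 0) : o ∉ K :=
  fun ho => hz (h.zeroK i o ho)

theorem memL (h : Sol v L K z) {i : Fin n} {o : Fin m} (hz : z i o ≠ 0) : i ∈ L := by
  by_contra hi
  exact hz (h.out i o hi)

/-- an object with one owner belongs to this owner -/
theorem eq_one (h : Sol v L K z) {i : Fin n} {o : Fin m} (hz : z i o ≠ 0)
    (hs : o ∉ shared z) : z i o = 1 := by
  have hc : (own z o).card ≤ 1 := by
    rw [mem_shared] at hs; omega
  have h1 := h.col o (h.notK hz)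
  rwa [sum_eq_single i (fun j _ hj => by
    by_contra hj0
    exact hj (card_le_one.1 hc j (mem_own.2 hj0) i (mem_own.2 hz)))
    (fun h => absurd (mem_univ i) h)] at h1

/-- the owner of a whole object is unique -/
theorem not_shared_of_one (h : Sol v L K z) {i : Fin n} {o : Fin m} (hz : z i o = 1) {j : Fin n}
    (hj : z j o ≠ 0) : j = i := by
  by_contra hne
  have hjp : 0 < z j o := lt_of_le_of_ne (h.nonneg j o) hj.symm
  have h1 := h.sum_le_one {i, j} o
  rw [sum_pair (Ne.symm hne)] at h1
  linarith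

theorem whole_not_shared (h : Sol v L K z) {T : Finset (Fin m)} {i : Fin n} {o : Fin m}
    (ho : o ∈ whole T z i) : o ∉ shared z := by
  rw [mem_shared]
  intro hc
  have h1 := (mem_whole.1 ho).2
  obtain ⟨a, ha, b, hb, hab⟩ := one_lt_card.1 hc
  exact hab ((h.not_shared_of_one h1 (mem_own.1 ha)).trans
    (h.not_shared_of_one h1 (mem_own.1 hb)).symm)

theorem whole_disj (h : Sol v L K z) {T : Finset (Fin m)} {i j : Fin n} (hij : i ≠ j) :
    Disjoint (whole T z i) (whole T z j) := by
  rw [disjoint_left]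
  intro o h1 h2
  have h3 := (mem_whole.1 h1).2
  have h4 := (mem_whole.1 h2).2
  exact hij (h.not_shared_of_one h4 (by rw [h3]; exact one_ne_zero))

theorem shared_sub (h : Sol v L K z) : shared z ⊆ Kᶜ := by
  intro o ho
  have h1 := mem_shared.1 ho
  obtain ⟨i, hi⟩ : (own z o).Nonempty := card_pos.1 (by omega)
  exact mem_compl.2 (h.notK (mem_own.1 hi))

/-- few shared objects -/
theorem sum_own (h : Sol v L K z) : ∑ o ∈ Kᶜ, ((own z o).card - 1) + 1 ≤ L.card := by
  have h1 : (univ.filter fun p : Fin n × Fin m => z p.1 p.2 ≠ 0).card =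
      ∑ o ∈ Kᶜ, (own z o).card := by
    have e : (univ.filter fun p : Fin n × Fin m => z p.1 p.2 ≠ 0).card =
        ∑ o, (own z o).card := by
      rw [card_filter, Fintype.sum_prod_type_right]
      refine sum_congr rfl fun o _ => ?_
      rw [own, card_filter]
    rw [e]
    refine (sum_subset (subset_univ Kᶜ) fun o _ ho => ?_).symm
    rw [card_eq_zero, own, filter_eq_empty_iff]
    intro i _
    rw [not_not]
    exact h.zeroK i o (by simpa using ho)
  have h2 : ∑ o ∈ Kᶜ, (own z o).card = ∑ o ∈ Kᶜ, ((own z o).card - 1) + Kᶜ.card := by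
    rw [card_eq_sum_ones, ← sum_add_distrib]
    refine sum_congr rfl fun o ho => ?_
    have : 0 < (own z o).card := by
      rw [card_pos]
      by_contra hno
      rw [not_nonempty_iff_eq_empty] at hno
      have h3 := h.col o (by simpa using ho)
      have h4 : ∑ i, z i o = 0 := sum_eq_zero fun i _ => by
        by_contra h5
        have : i ∈ own z o := mem_own.2 h5
        rw [hno] at this
        exact absurd this (notMem_empty i)
      rw [h4] at h3
      exact absurd h3 (by norm_num)
    omega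
  have h3 := h.few
  rw [h1, h2] at h3
  omega

/-- a part of the agents, with the objects outside `K'` -/
theorem satSet_part (h : Sol v L K z) {C : Finset (Fin n)} (hC : C ⊆ L) {K' : Finset (Fin m)}
    (hK' : ∀ o ∈ K', ∀ i ∈ C, z i o = 0) : SatSet v C K' := by
  refine ⟨z, h.nonneg, fun o => ?_, fun i hi => h.acc i (hC hi)⟩
  split_ifs with ho
  · exact (sum_eq_zero fun i hi => hK' o ho i hi).le
  · exact h.sum_le_one C o

end Sol

/-- the agents of `C` are satisfied from the objects outside a set of `(n - |C|) k` objects of `T` -/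
def PS (v : Fin n → Fin m → ℕ) (T : Finset (Fin m)) (k : ℕ) (C : Finset (Fin n)) : Prop :=
  ∃ K ⊆ T, K.card + C.card * k = n * k ∧ SatSet v C K

variable {T : Finset (Fin m)} {k : ℕ}

/-- no part of the agents is closed -/
theorem not_closed (hk : 1 ≤ k) (hT : T.card + 1 = n * k) (h : Sol v L K z)
    (hmin : ∀ C : Finset (Fin n), C.Nonempty → C.card < L.card → ¬ PS v T k C)
    (hw : ∀ i ∈ L, (whole T z i).card ≤ k - 1) {C : Finset (Fin n)} (hC : C ⊆ L)
    (hC0 : C.Nonempty) (hCL : C.card < L.card)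
    (hcl : ∀ o ∈ shared z, ∀ i ∈ C, z i o ≠ 0 → own z o ⊆ C)
    (hfew : ((shared z).filter fun o => own z o ⊆ C).card + 1 ≤ C.card) : False := by
  classical
  have hCn : C.card ≤ n := by simpa using card_le_univ C
  obtain ⟨d, hd⟩ := Nat.exists_eq_add_of_le hCn
  have h1 : (C.biUnion (whole T z) ∪ (shared z).filter fun o => own z o ⊆ C).card ≤
      C.card * (k - 1) + ((shared z).filter fun o => own z o ⊆ C).card := by
    refine (card_union_le _ _).trans (Nat.add_le_add_right ?_ _)
    exact card_biUnion_le_card_mul _ _ _ fun i hi => hw i (hC hi)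
  have h2 := le_card_sdiff (C.biUnion (whole T z) ∪ (shared z).filter fun o => own z o ⊆ C) T
  have h3 : C.card * (k - 1) + C.card = C.card * k := by
    obtain ⟨k', rfl⟩ := Nat.exists_eq_add_of_le hk
    rw [Nat.add_sub_cancel_left]
    ring
  have h4 : n * k = C.card * k + d * k := by rw [← Nat.add_mul, ← hd]
  obtain ⟨K', hK', hK'c⟩ := exists_subset_card_eq
    (s := T \ (C.biUnion (whole T z) ∪ (shared z).filter fun o => own z o ⊆ C)) (n := d * k)
    (by omega)
  refine hmin C hC0 hCL ⟨K', hK'.trans sdiff_subset, by omega, h.satSet_part hC ?_⟩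
  intro o ho i hi
  by_contra hz
  obtain ⟨hoT, hno⟩ := mem_sdiff.1 (hK' ho)
  rw [mem_union, not_or] at hno
  by_cases hs : o ∈ shared z
  · exact hno.2 (mem_filter.2 ⟨hs, hcl o hs i hi hz⟩)
  · exact hno.1 (mem_biUnion.2 ⟨i, hi, mem_whole.2 ⟨hoT, h.eq_one hz hs⟩⟩)

theorem whole_card (hk : 1 ≤ k) (hT : T.card + 1 = n * k) (hKT : K ⊆ T)
    (hKc : K.card + L.card * k = n * k) (h : Sol v L K z)
    (hmin : ∀ C : Finset (Fin n), C.Nonempty → C.card < L.card → ¬ PS v T k C)
    {i : Fin n} (hi : i ∈ L) : (whole T z i).card ≤ k - 1 := by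
  classical
  by_contra hlt
  push Not at hlt
  obtain ⟨M, hM, hMc⟩ := exists_subset_card_eq (s := whole T z i) (n := k) (by omega)
  have hdis : Disjoint K M := by
    rw [disjoint_left]
    intro o ho ho2
    have h1 := (mem_whole.1 (hM ho2)).2
    rw [h.zeroK i o ho] at h1
    exact absurd h1 (by norm_num)
  have hMT : M ⊆ T := fun o ho => (mem_whole.1 (hM ho)).1
  have hcard : (K ∪ M).card = K.card + k := by rw [card_union_of_disjoint hdis, hMc]
  have hle := card_le_card (union_subset hKT hMT)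
  have hL1 : 1 ≤ L.card := card_pos.2 ⟨i, hi⟩
  have hL2 : 2 ≤ L.card := by
    by_contra h2
    have h3 : L.card = 1 := by omega
    rw [h3] at hKc
    omega
  have hc' : (L.erase i).card + 1 = L.card := by
    rw [card_erase_of_mem hi]; omega
  refine hmin (L.erase i) (card_pos.1 (by omega)) (by omega)
    ⟨K ∪ M, union_subset hKT hMT, ?_, h.satSet_part (erase_subset i L) ?_⟩
  · have : L.card * k = (L.erase i).card * k + k := by rw [← hc']; ring
    omega
  · intro o ho j hj
    rcases mem_union.1 ho with ho' | ho'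
    · exact h.zeroK j o ho'
    · by_contra hz
      exact (mem_erase.1 hj).1 (h.not_shared_of_one (mem_whole.1 (hM ho')).2 hz)

/-- the structure of the shared objects -/
theorem shared_structure (hk : 1 ≤ k) (hT : T.card + 1 = n * k) (hKT : K ⊆ T)
    (hKc : K.card + L.card * k = n * k) (h : Sol v L K z)
    (hw : ∀ i ∈ L, (whole T z i).card ≤ k - 1) (hL : L.Nonempty) :
    shared z ⊆ T ∧ (shared z).card + 1 = L.card ∧ ∀ o ∈ shared z, (own z o).card = 2 := by
  classical
  have hL1 : 1 ≤ L.card := card_pos.2 hL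
  have h1 := h.sum_own
  -- at least l - 1 shared objects in T
  have h2 : T \ K ⊆ L.biUnion (whole T z) ∪ (shared z ∩ T) := by
    intro o ho
    obtain ⟨hoT, hoK⟩ := mem_sdiff.1 ho
    rw [mem_union]
    by_cases hs : o ∈ shared z
    · exact Or.inr (mem_inter.2 ⟨hs, hoT⟩)
    · left
      obtain ⟨i, hi⟩ : ∃ i, z i o ≠ 0 := by
        by_contra hno
        push Not at hno
        have h3 := h.col o hoK
        rw [sum_eq_zero fun i _ => hno i] at h3
        exact absurd h3 (by norm_num)
      exact mem_biUnion.2 ⟨i, h.memL hi, mem_whole.2 ⟨hoT, h.eq_one hi hs⟩⟩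
  have h3 := card_le_card h2
  have h4 : (L.biUnion (whole T z) ∪ (shared z ∩ T)).card ≤
      L.card * (k - 1) + (shared z ∩ T).card := by
    refine (card_union_le _ _).trans (Nat.add_le_add_right ?_ _)
    exact card_biUnion_le_card_mul _ _ _ fun i hi => hw i hi
  have h5 : (T \ K).card = T.card - K.card := card_sdiff_of_subset hKT
  have h6 : L.card * (k - 1) + L.card = L.card * k := by
    obtain ⟨k', rfl⟩ := Nat.exists_eq_add_of_le hk
    rw [Nat.add_sub_cancel_left]
    ring
  have h7 : L.card ≤ (shared z ∩ T).card + 1 := by omega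
  -- at most l - 1 shared objects
  have h8 : ∑ o ∈ shared z, ((own z o).card - 1) ≤ ∑ o ∈ Kᶜ, ((own z o).card - 1) :=
    sum_le_sum_of_subset (h.shared_sub)
  have h9 : ∀ o ∈ shared z, 1 ≤ (own z o).card - 1 := by
    intro o ho
    have := mem_shared.1 ho
    omega
  have h10 : (shared z).card ≤ ∑ o ∈ shared z, ((own z o).card - 1) := by
    rw [card_eq_sum_ones]
    exact sum_le_sum h9
  have h11 : (shared z ∩ T).card ≤ (shared z).card := card_le_card inter_subset_left
  have h12 : shared z ∩ T = shared z :=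
    eq_of_subset_of_card_le inter_subset_left (by omega)
  refine ⟨inter_eq_left.1 h12, by omega, fun o ho => ?_⟩
  have h13 : ∑ o ∈ shared z, ((own z o).card - 1) = ∑ o ∈ shared z, 1 := by
    rw [← card_eq_sum_ones]; omega
  have h14 := (sum_eq_sum_iff_of_le (s := shared z) (f := fun _ => 1)
    (g := fun o => (own z o).card - 1) h9).1 h13.symm o ho
  have h15 := mem_shared.1 ho
  omega

/-- a chain inside the solution -/
structure Inv (v : Fin n → Fin m → ℕ) (T : Finset (Fin m)) (L : Finset (Fin n))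
    (z : Fin n → Fin m → ℝ) (lam : Fin n → ℕ) (Q : Finset (Fin m)) (W : ℕ)
    (w : Fin m → ℕ) : Prop where
  chain : Chain v T lam Q W
  sub : ∀ q, lam q ≠ 0 → q ∈ L
  Qsub : Q ⊆ shared z
  card : Q.card + 1 = (univ.filter fun q => lam q ≠ 0).card
  tie : ∀ X ∈ Q, ∀ q, z q X ≠ 0 → lam q ≠ 0 ∧ lam q * v q X = w X
  sum : W = ∑ X ∈ Q, w X

theorem inv_base {r : Fin n} (hr : r ∈ L) :
    Inv v T L z (fun q => if q = r then 1 else 0) ∅ 0 (fun _ => 0) := by
  refine ⟨Chain.base r, ?_, by simp, ?_, by simp, by simp⟩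
  · intro q hq
    by_cases h : q = r
    · rw [h]; exact hr
    · rw [if_neg h] at hq; exact absurd rfl hq
  · have : (univ.filter fun q : Fin n => (if q = r then (1 : ℕ) else 0) ≠ 0) = {r} := by
      ext q
      by_cases h : q = r <;> simp [h]
    rw [this]
    simp

theorem inv_step (hS : shared z ⊆ T) (h2 : ∀ o ∈ shared z, (own z o).card = 2)
    (h : Sol v L K z) {lam : Fin n → ℕ} {Q : Finset (Fin m)} {W : ℕ} {w : Fin m → ℕ}
    (hI : Inv v T L z lam Q W w) {X : Fin m} (hX : X ∈ shared z) {p i : Fin n} (hp : lam p ≠ 0)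
    (hi : lam i = 0) (hzp : z p X ≠ 0) (hzi : z i X ≠ 0) :
    ∃ lam' W' w', Inv v T L z lam' (insert X Q) W' w' ∧ X ∉ Q := by
  classical
  have hXQ : X ∉ Q := fun hXQ => (hI.tie X hXQ i hzi).1 hi
  have hne1 : ∀ q, z q X ≠ 0 → z q X ≠ 1 := by
    intro q hq h1
    have := h.whole_not_shared (T := T) (mem_whole.2 ⟨hS hX, h1⟩)
    exact this hX
  have hvi : v i X ≠ 0 := (h.pos i X hzi (hne1 i hzi)).ne'
  have hvp : v p X ≠ 0 := (h.pos p X hzp (hne1 p hzp)).ne'
  have hpi : p ≠ i := fun e => hp (e ▸ hi)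
  have hnz : ∀ q, (if q = i then lam p * v p X else lam q * v i X) ≠ 0 ↔ (lam q ≠ 0 ∨ q = i) := by
    intro q
    by_cases hq : q = i
    · rw [if_pos hq]
      exact ⟨fun _ => Or.inr hq, fun _ => mul_ne_zero hp hvp⟩
    · rw [if_neg hq]
      constructor
      · intro h'
        left
        exact left_ne_zero_of_mul h'
      · rintro (h' | h')
        · exact mul_ne_zero h' hvi
        · exact absurd h' hq
  refine ⟨_, _, fun Y => if Y = X then lam p * v p X * v i X else w Y * v i X,
    ⟨Chain.step hI.chain (hS hX) hXQ hp hi hvi hvp, ?_, ?_, ?_, ?_, ?_⟩, hXQ⟩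
  · intro q hq
    rcases (hnz q).1 hq with h' | h'
    · exact hI.sub q h'
    · rw [h']; exact h.memL hzi
  · intro o ho
    rcases mem_insert.1 ho with h' | h'
    · rw [h']; exact hX
    · exact hI.Qsub h'
  · have e : (univ.filter fun q => (if q = i then lam p * v p X else lam q * v i X) ≠ 0) =
        insert i (univ.filter fun q => lam q ≠ 0) := by
      ext q
      rw [mem_filter, mem_insert, mem_filter, hnz]
      simp only [mem_univ, true_and]
      exact or_comm
    rw [e, card_insert_of_notMem hXQ, card_insert_of_notMem (by simp [hi]), hI.card]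
  · intro Y hY q hq
    rcases mem_insert.1 hY with hYX | hYQ
    · subst hYX
      -- the owners are p and i
      have hown : q = p ∨ q = i := by
        by_contra hno
        push Not at hno
        have h3 : ({q, p, i} : Finset (Fin n)) ⊆ own z Y := by
          intro a ha
          simp only [mem_insert, mem_singleton] at ha
          rcases ha with h' | h' | h' <;> rw [h', mem_own]
          · exact hq
          · exact hzp
          · exact hzi
        have h4 := card_le_card h3
        rw [h2 Y hX, card_insert_of_notMem (by simp [hno.1, hno.2]), card_pair hpi] at h4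
        omega
      refine ⟨(hnz q).2 ?_, ?_⟩
      · rcases hown with h' | h'
        · left; rw [h']; exact hp
        · exact Or.inr h'
      · rcases hown with h' | h'
        · rw [h', if_neg hpi, if_pos rfl]
          ring
        · rw [h', if_pos rfl, if_pos rfl]
    · have hYX : Y ≠ X := fun e => hXQ (e ▸ hYQ)
      obtain ⟨h3, h4⟩ := hI.tie Y hYQ q hq
      have hqi : q ≠ i := fun e => h3 (e ▸ hi)
      refine ⟨(hnz q).2 (Or.inl h3), ?_⟩
      rw [if_neg hqi, if_neg hYX, ← h4]
      ring
  · rw [sum_insert hXQ, if_pos rfl, hI.sum, sum_mul, add_comm]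
    congr 1
    refine sum_congr rfl fun Y hY => ?_
    have hne : Y ≠ X := fun e => hXQ (e ▸ hY)
    rw [if_neg hne]

/-- an edge which leaves the tree -/
theorem exists_edge (hk : 1 ≤ k) (hT : T.card + 1 = n * k) (h : Sol v L K z)
    (hmin : ∀ C : Finset (Fin n), C.Nonempty → C.card < L.card → ¬ PS v T k C)
    (hw : ∀ i ∈ L, (whole T z i).card ≤ k - 1) (hSc : (shared z).card + 1 = L.card)
    {A : Finset (Fin n)} (hA : A ⊆ L) (hA0 : A.Nonempty) (hAL : A.card < L.card) :
    ∃ X ∈ shared z, ∃ p ∈ A, ∃ i ∉ A, z p X ≠ 0 ∧ z i X ≠ 0 := by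
  classical
  by_contra hno
  push Not at hno
  -- closedness of both sides
  have hc1 : ∀ o ∈ shared z, ∀ i ∈ A, z i o ≠ 0 → own z o ⊆ A := by
    intro o ho i hi hz q hq
    by_contra hqA
    exact mem_own.1 hq (hno o ho i hi q hqA hz)
  have hc2 : ∀ o ∈ shared z, ∀ i ∈ L \ A, z i o ≠ 0 → own z o ⊆ L \ A := by
    intro o ho i hi hz q hq
    refine mem_sdiff.2 ⟨h.memL (mem_own.1 hq), fun hqA => ?_⟩
    exact hz (hno o ho q hqA i (mem_sdiff.1 hi).2 (mem_own.1 hq))
  have hcB : (L \ A).card + A.card = L.card := card_sdiff_add_card_eq_card hA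
  have hA1 : 1 ≤ A.card := card_pos.2 hA0
  have hsum : ((shared z).filter fun o => own z o ⊆ A).card +
      ((shared z).filter fun o => own z o ⊆ L \ A).card ≤ (shared z).card := by
    rw [← card_union_of_disjoint]
    · exact card_le_card (union_subset (filter_subset _ _) (filter_subset _ _))
    · rw [disjoint_left]
      intro o h1 h2
      have h3 := mem_shared.1 (mem_filter.1 h1).1
      obtain ⟨i, hi⟩ : (own z o).Nonempty := card_pos.1 (by omega)
      exact (mem_sdiff.1 ((mem_filter.1 h2).2 hi)).2 ((mem_filter.1 h1).2 hi)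
  by_cases hf : ((shared z).filter fun o => own z o ⊆ A).card + 1 ≤ A.card
  · exact not_closed hk hT h hmin hw hA hA0 hAL hc1 hf
  · exact not_closed hk hT h hmin hw (sdiff_subset (s := L) (t := A)) (card_pos.1 (by omega))
      (by omega) hc2 (by omega)

/-- the chain can be grown -/
theorem exists_inv (hk : 1 ≤ k) (hT : T.card + 1 = n * k) (h : Sol v L K z)
    (hmin : ∀ C : Finset (Fin n), C.Nonempty → C.card < L.card → ¬ PS v T k C)
    (hw : ∀ i ∈ L, (whole T z i).card ≤ k - 1) (hS : shared z ⊆ T)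
    (hSc : (shared z).card + 1 = L.card) (h2 : ∀ o ∈ shared z, (own z o).card = 2)
    (hL : L.Nonempty) (j : ℕ) : j + 1 ≤ L.card →
    ∃ lam Q W w, Inv v T L z lam Q W w ∧ Q.card = j := by
  induction j with
  | zero =>
    intro _
    obtain ⟨r, hr⟩ := hL
    exact ⟨_, _, _, _, inv_base hr, rfl⟩
  | succ j ih =>
    intro hj
    obtain ⟨lam, Q, W, w, hI, hQ⟩ := ih (by omega)
    have hc := hI.card
    obtain ⟨X, hX, p, hp, i, hi, hzp, hzi⟩ := exists_edge hk hT h hmin hw hSc
      (A := univ.filter fun q => lam q ≠ 0) (fun q hq => hI.sub q (mem_filter.1 hq).2)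
      (card_pos.1 (by omega)) (by omega)
    obtain ⟨lam', W', w', hI', hXQ⟩ := inv_step hS h2 h hI hX (mem_filter.1 hp).2
      (by simpa using hi) hzp hzi
    exact ⟨lam', _, W', w', hI', by rw [card_insert_of_notMem hXQ, hQ]⟩

/-- the final inequality -/
theorem bad_of_inv (hn : 1 ≤ n) (h : Sol v L K z) (hSc : (shared z).card + 1 = L.card)
    (hw : ∀ i ∈ L, (whole T z i).card ≤ k - 1) {lam : Fin n → ℕ} {Q : Finset (Fin m)} {W : ℕ}
    {w : Fin m → ℕ} (hI : Inv v T L z lam Q W w) (hQ : Q.card + 1 = L.card) (hS : shared z ⊆ T) :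
    Bad v T k lam Q W := by
  classical
  have hQS : Q = shared z := eq_of_subset_of_card_le hI.Qsub (by omega)
  refine ⟨whole T z, fun i j hij => h.whole_disj hij, ?_, ?_, ?_⟩
  · intro i o ho
    refine mem_sdiff.2 ⟨(mem_whole.1 ho).1, fun hoQ => ?_⟩
    exact h.whole_not_shared ho (hI.Qsub hoQ)
  · intro i
    by_cases hi : i ∈ L
    · exact hw i hi
    · have : whole T z i = ∅ := by
        rw [eq_empty_iff_forall_notMem]
        intro o ho
        have h1 := (mem_whole.1 ho).2
        rw [h.out i o hi] at h1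
        exact absurd h1 (by norm_num)
      rw [this]
      simp
  · -- the weighted value
    have hn' : (0 : ℝ) < n := by exact_mod_cast hn
    have step1 : ∑ i, ((lam i * tv v i : ℕ) : ℝ) ≤
        n * ∑ o, ∑ i, (lam i : ℝ) * v i o * z i o := by
      rw [sum_comm, mul_sum]
      refine sum_le_sum fun i _ => ?_
      by_cases hi : lam i = 0
      · rw [hi]
        simp
      · have h1 := h.acc i (hI.sub i hi)
        unfold FairDivP.Acc fs at h1
        rw [div_le_iff₀ hn'] at h1
        have h2 : (0 : ℝ) ≤ lam i := Nat.cast_nonneg _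
        have h3 := mul_le_mul_of_nonneg_left h1 h2
        have e : ∑ o, (lam i : ℝ) * v i o * z i o = lam i * ∑ o, (v i o : ℝ) * z i o := by
          rw [mul_sum]
          exact sum_congr rfl fun o _ => by ring
        rw [e, tv]
        push_cast
        linarith
    -- object by object
    have step2 : ∀ o, ∑ i, (lam i : ℝ) * v i o * z i o ≤
        (if o ∈ T then (if o ∈ Q then (w o : ℝ) else
          ∑ i, if o ∈ whole T z i then (lam i : ℝ) * v i o else 0) else
          ((univ.sup fun i => lam i * v i o : ℕ) : ℝ)) := by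
      intro o
      by_cases hoT : o ∈ T
      · rw [if_pos hoT]
        by_cases hoQ : o ∈ Q
        · rw [if_pos hoQ]
          have hle : ∑ i, (lam i : ℝ) * v i o * z i o ≤ ∑ i, (w o : ℝ) * z i o := by
            refine sum_le_sum fun i _ => ?_
            by_cases hz : z i o = 0
            · rw [hz, mul_zero, mul_zero]
            · have h1 := (hI.tie o hoQ i hz).2
              have h2 : (lam i : ℝ) * v i o = w o := by exact_mod_cast h1
              rw [h2]
          refine hle.trans ?_
          rw [← mul_sum]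
          have h3 := h.sum_le_one univ o
          have h4 : (0 : ℝ) ≤ w o := Nat.cast_nonneg _
          nlinarith
        · rw [if_neg hoQ]
          refine sum_le_sum fun i _ => ?_
          by_cases hz : z i o = 0
          · rw [hz, mul_zero]
            split_ifs
            · positivity
            · exact le_rfl
          · have hs : o ∉ shared z := by rw [← hQS]; exact hoQ
            have h1 := h.eq_one hz hs
            rw [if_pos (mem_whole.2 ⟨hoT, h1⟩), h1, mul_one]
      · rw [if_neg hoT]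
        have hle : ∑ i, (lam i : ℝ) * v i o * z i o ≤
            ∑ i, ((univ.sup fun i => lam i * v i o : ℕ) : ℝ) * z i o := by
          refine sum_le_sum fun i _ => mul_le_mul_of_nonneg_right ?_ (h.nonneg i o)
          have h1 : lam i * v i o ≤ univ.sup fun i => lam i * v i o :=
            le_sup (f := fun i => lam i * v i o) (mem_univ i)
          exact_mod_cast h1
        refine hle.trans ?_
        rw [← mul_sum]
        have h3 := h.sum_le_one univ o
        have h4 : (0 : ℝ) ≤ ((univ.sup fun i => lam i * v i o : ℕ) : ℝ) := Nat.cast_nonneg _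
        nlinarith
    have hQT : Q ⊆ T := hI.Qsub.trans hS
    have step3 : ∑ o, (if o ∈ T then (if o ∈ Q then (w o : ℝ) else
          ∑ i, if o ∈ whole T z i then (lam i : ℝ) * v i o else 0) else
          ((univ.sup fun i => lam i * v i o : ℕ) : ℝ)) =
        ((W + ∑ o ∈ univ \ T, univ.sup (fun i => lam i * v i o) +
          ∑ i, lam i * sv v i (whole T z i) : ℕ) : ℝ) := by
      have e1 : ∑ i, (lam i : ℝ) * (sv v i (whole T z i) : ℕ) =
          ∑ o ∈ T \ Q, ∑ i, if o ∈ whole T z i then (lam i : ℝ) * v i o else 0 := by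
        rw [sum_comm]
        refine sum_congr rfl fun i _ => ?_
        rw [← sum_filter]
        have e2 : (T \ Q).filter (fun o => o ∈ whole T z i) = whole T z i := by
          ext o
          rw [mem_filter]
          refine ⟨fun h' => h'.2, fun h' => ⟨mem_sdiff.2 ⟨(mem_whole.1 h').1, fun hoQ => ?_⟩, h'⟩⟩
          exact h.whole_not_shared h' (hI.Qsub hoQ)
        rw [e2, sv, ← mul_sum]
        push_cast
        rfl
      have e3 : ∀ f : Fin m → ℝ, ∑ o, f o = ∑ o ∈ Q, f o + ∑ o ∈ univ \ T, f o +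
          ∑ o ∈ T \ Q, f o := by
        intro f
        have h1 := sum_sdiff (f := f) hQT
        have h2 := sum_sdiff (f := f) (subset_univ T)
        linarith
      rw [e3]
      push_cast
      rw [e1, hI.sum]
      congr 1
      · congr 1
        · push_cast
          refine sum_congr rfl fun o ho => ?_
          rw [if_pos (hQT ho), if_pos ho]
        · refine sum_congr rfl fun o ho => ?_
          rw [if_neg (mem_sdiff.1 ho).2]
      · refine sum_congr rfl fun o ho => ?_
        rw [if_pos (mem_sdiff.1 ho).1, if_neg (mem_sdiff.1 ho).2]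
    have final := step1.trans (mul_le_mul_of_nonneg_left
      ((sum_le_sum fun o _ => step2 o).trans step3.le) hn'.le)
    have : ((∑ i, lam i * tv v i : ℕ) : ℝ) ≤ ((n * (W + ∑ o ∈ univ \ T,
        univ.sup (fun i => lam i * v i o) + ∑ i, lam i * sv v i (whole T z i)) : ℕ) : ℝ) := by
      refine le_trans (le_of_eq ?_) (final.trans (le_of_eq ?_))
      · rw [Nat.cast_sum]
      · rw [Nat.cast_mul]
    exact_mod_cast this

end main

end YB

open YB

/-- **A bad chain from a satisfied set of agents.** -/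
theorem badChain_of_satSet (hn : 1 ≤ n) (v : Fin n → Fin m → ℕ) {k : ℕ} (hk : 1 ≤ k)
    {T : Finset (Fin m)} (hT : T.card + 1 = n * k) (L : Finset (Fin n)) (hL : L.Nonempty)
    (hLn : L.card + 1 ≤ n) (K : Finset (Fin m)) (hK : K ⊆ T) (hc : K.card + L.card * k = n * k)
    (h : SatSet v L K) : BadChain v T k := by
  classical
  -- a smallest set of agents
  obtain ⟨L0, hL0, hmin⟩ := exists_min_image
    (univ.filter fun C : Finset (Fin n) => C.Nonempty ∧ PS v T k C) Finset.card
    ⟨L, by simpa using ⟨hL, K, hK, hc, h⟩⟩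
  simp only [mem_filter, mem_univ, true_and] at hL0 hmin
  obtain ⟨hne, K0, hK0, hc0, h0⟩ := hL0
  have hle : L0.card ≤ L.card := hmin L ⟨hL, K, hK, hc, h⟩
  have hmin' : ∀ C : Finset (Fin n), C.Nonempty → C.card < L0.card → ¬ PS v T k C := by
    intro C hC hlt hP
    exact absurd (hmin C ⟨hC, hP⟩) (by omega)
  obtain ⟨z, hz⟩ := exists_sol v hne h0
  have hw : ∀ i ∈ L0, (whole T z i).card ≤ k - 1 := fun i hi =>
    whole_card hk hT hK0 hc0 hz hmin' hi
  obtain ⟨hS, hSc, h2⟩ := shared_structure hk hT hK0 hc0 hz hw hne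
  have hL1 : 1 ≤ L0.card := card_pos.2 hne
  obtain ⟨lam, Q, W, w, hI, hQ⟩ := exists_inv hk hT hz hmin' hw hS hSc h2 hne (L0.card - 1)
    (by omega)
  exact ⟨lam, Q, W, hI.chain, by omega, bad_of_inv hn hz hSc hw hI (by omega) hS⟩

/-- **A YES instance has a bad chain**, for every `T` with `n k - 1` elements. -/
theorem bad_of_yes (hn : 3 ≤ n) (v : Fin n → Fin m → ℕ) {k : ℕ} (hk : 1 ≤ k)
    {T : Finset (Fin m)} (hT : T.card + 1 = n * k) (h : Yes v (n - 2)) : BadChain v T k := by
  obtain ⟨L, K, hL, hK, hKc, hs⟩ := satSet_of_yes hn v h hk (T := T) (by omega)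
  refine badChain_of_satSet (by omega) v hk hT L (card_pos.1 (by omega)) (by omega) K hK ?_ hs
  rw [hKc, hL]
  obtain ⟨n', rfl⟩ := Nat.exists_eq_add_of_le hn
  have : 3 + n' - 1 = 2 + n' := by omega
  rw [this]
  ring

end Pool.Agent.FairDivA
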