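import Pool.Agent.Lib_MP_42f051_alg.AnswerIff
import Pool.Agent.Lib_MP_42f051_alg.BadYes
import Pool.Agent.Lib_MP_42f051_alg.YesBad
import Pool.Agent.Lib_MP_42f051_lc_p.Heavy
import Pool.Agent.Lib_MP_42f051_lc_p.Uni

/-!
# PROP-SharedObj(n, n - 2): the answer of the algorithm is right
-/

namespace Pool.Agent.FairDivA

open Pool.Agent.FairDiv Pool.Agent.FairDivS Pool.Agent.FairDivP Finset

variable {n m : ℕ}

/-- an allocation with at most `n - 2` shared objects gives a bad chain -/
theorem badChain_of_yes (hn : 3 ≤ n) (v : Fin n → Fin m → ℕ) {k : ℕ} (hk : 1 ≤ k)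
    {T : Finset (Fin m)} (hT : T.card = n * k - 1) (h : Yes v (n - 2)) : BadChain v T k := by
  obtain ⟨L, K, hL, hK, hKc, hS⟩ := satSet_of_yes hn v h hk hT
  have h1 : 1 ≤ n * k := Nat.mul_pos (by omega) hk
  refine badChain_of_satSet (by omega) v hk (by omega) L ?_ (by omega) K hK ?_ hS
  · rw [← card_pos]
    omega
  · obtain ⟨n', rfl⟩ : ∃ n', n = n' + 1 := ⟨n - 1, by omega⟩
    rw [hKc, hL, Nat.add_sub_cancel]
    ring

/-- There is a proportional allocation with at most `n - 2` shared objects if and only if the answer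
of the algorithm is yes. -/
theorem yes_iff_answer (hn : 3 ≤ n) (v : Fin n → Fin m → ℕ) : Yes v (n - 2) ↔ Answer v :=
  yes_iff_answer' hn v (exists_uniform hn v)
    (fun _ _ hk hT hU hB => yes_of_bad hn v hk hT hU hB)
    (fun _ _ hk hT h => badChain_of_yes hn v hk hT h)

end Pool.Agent.FairDivA
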