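import Pool.Agent.Lib_MP_42f051_alg.AlgoIff
import Pool.Agent.Lib_MP_42f051_alg.AccT
import Pool.Agent.Lib_MP_42f051_alg.BadL
import Pool.Agent.Lib_MP_42f051_alg.FPAll
import Pool.Agent.Lib_MP_42f051_alg.MathMain

/-!
# PROP-SharedObj(n, n - 2) is decided in polynomial time
-/

namespace Pool.Agent.FairDivA

open Pool.Agent.FairDiv Pool.Agent.FairDivP Pool.Agent.PartSep.TM

/-- the dynamic program has the property used for the algorithm -/
theorem dpSpec_dp (n : ℕ) : DPSpec n (Pool.Agent.FairDivDP.dp n) := by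
  intro K W hW
  exact Pool.Agent.FairDivDP.dp_val n K W

/-- PROP-SharedObj(n, n - 2) is decided by a function which is computable in polynomial time. -/
theorem propSharedObj_polyTime (n : ℕ) (hn : 3 ≤ n) :
    ∃ A : List ℕ → Bool, N68a2faeb.IsPolyTime A ∧
      ∀ y : List ℕ, A y = true ↔ PropSharedObj n (n - 2) y := by
  refine ⟨fun y => algo (Pool.Agent.FairDivDP.dp n) n (y.map BN.mk), isPolyTime_algo_dp n,
    fun y => ?_⟩
  rw [propSharedObj_iff, yes_iff_answer hn]
  exact algo_iff_of (by omega) (mB_yB n y) (fun i o => gv_mat n y i o) (isFirst_jB (by omega) y)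
    (isT_TB (by omega) y) (fun o => mem_toF) (card_TB y) fun c L Q W hc _ =>
      badB_iff (dpSpec_dp n) (mB_yB n y) (fun i o => gv_mat n y i o) (fun o => mem_toF) rfl hc

end Pool.Agent.FairDivA
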