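import Pool.Agent.Lib_MP_42f051_alg.SolDefs

/-!
# PROP-SharedObj(n, n - 2): restriction of a solution to a union of components
-/

namespace Pool.Agent.FairDivA

open Pool.Agent.FairDiv Pool.Agent.FairDivS Pool.Agent.FairDivP Finset

variable {n m : ℕ}

section
variable {v : Fin n → Fin m → ℕ} {Y : Finset (Fin n)} {K : Finset (Fin m)} {z : Fin n → Fin m → ℝ}

theorem Sol.notMem_of_ne (hz : Sol v Y K z) {i : Fin n} {o : Fin m} (h : z i o ≠ 0) : o ∉ K := by
  intro ho
  have h1 := hz.col o
  rw [if_pos ho, sum_eq_zero_iff_of_nonneg fun i _ => hz.nonneg i o] at h1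
  exact h (h1 i (mem_univ i))

theorem Sol.mem_of_ne (hz : Sol v Y K z) {i : Fin n} {o : Fin m} (h : z i o ≠ 0) : i ∈ Y := by
  by_contra hc
  exact h (hz.out i hc o)

theorem Sol.col_le (hz : Sol v Y K z) (o : Fin m) : ∑ i, z i o ≤ 1 := by
  rw [hz.col o]
  split_ifs <;> norm_num

theorem Sol.eq_of_one (hz : Sol v Y K z) {i j : Fin n} {o : Fin m} (hi : z i o = 1)
    (hj : z j o = 1) : i = j := by
  classical
  by_contra hij
  have h1 : ∑ q ∈ {i, j}, z q o ≤ ∑ q, z q o :=
    sum_le_sum_of_subset_of_nonneg (subset_univ _) fun q _ _ => hz.nonneg q o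
  rw [sum_pair hij, hi, hj] at h1
  linarith [hz.col_le o]
end

/-- restriction to a set of agents which shares no object with the others -/
theorem PY.restrict {v : Fin n → Fin m → ℕ} {T : Finset (Fin m)} {k : ℕ} {Y : Finset (Fin n)}
    {K : Finset (Fin m)} {z : Fin n → Fin m → ℝ} (hT : T.card + 1 = n * k)
    (hz : Sol v Y K z) {A : Finset (Fin n)} (hA : A ⊆ Y) (hA0 : A.Nonempty)
    (hsep : ∀ o, ∀ a ∈ A, ∀ b ∉ A, z a o = 0 ∨ z b o = 0)
    (hc : (T.filter fun o => ∃ a ∈ A, z a o ≠ 0).card + 1 ≤ A.card * k) : PY v T k A := by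
  classical
  set U : Finset (Fin m) := T.filter fun o => ∃ a ∈ A, z a o ≠ 0 with hU
  have hAn : A.card ≤ n := by
    have := card_le_univ A
    rwa [Fintype.card_fin] at this
  have hAk : A.card * k ≤ n * k := Nat.mul_le_mul_right k hAn
  have hUT : (T \ U).card = T.card - U.card := card_sdiff_of_subset (filter_subset _ _)
  obtain ⟨K', hK's, hK'c⟩ := exists_subset_card_eq (s := T \ U) (n := n * k - A.card * k) (by omega)
  obtain ⟨a0, ha0⟩ := hA0
  refine ⟨K', fun o ho => (mem_sdiff.1 (hK's ho)).1, by omega, ?_⟩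
  refine ⟨fun i o => if i ∈ A then (if ∃ a ∈ A, z a o ≠ 0 then z i o else
    if i = a0 ∧ o ∉ K' then 1 else 0) else 0, ?_, ?_, ?_, ?_⟩
  · intro i o
    split_ifs
    · exact hz.nonneg i o
    · norm_num
    · norm_num
    · norm_num
  · intro i hi o
    rw [if_neg hi]
  · intro o
    by_cases h : ∃ a ∈ A, z a o ≠ 0
    · obtain ⟨a, ha, hao⟩ := h
      have e : ∀ i, (if i ∈ A then (if ∃ a ∈ A, z a o ≠ 0 then z i o else
          if i = a0 ∧ o ∉ K' then 1 else 0) else 0) = z i o := by
        intro i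
        rw [if_pos (show ∃ a ∈ A, z a o ≠ 0 from ⟨a, ha, hao⟩)]
        split_ifs with hi
        · rfl
        · rcases hsep o a ha i hi with h | h
          · exact absurd h hao
          · exact h.symm
      simp only [e]
      rw [hz.col o, if_neg (hz.notMem_of_ne hao), if_neg]
      intro ho
      have h1 := mem_sdiff.1 (hK's ho)
      exact h1.2 (mem_filter.2 ⟨h1.1, a, ha, hao⟩)
    · have e : ∀ i, (if i ∈ A then (if ∃ a ∈ A, z a o ≠ 0 then z i o else
          if i = a0 ∧ o ∉ K' then 1 else 0) else 0) =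
          if i = a0 then (if o ∈ K' then (0 : ℝ) else 1) else 0 := by
        intro i
        rw [if_neg h]
        by_cases hi : i = a0
        · subst hi
          by_cases ho : o ∈ K' <;> simp [ha0, ho]
        · simp [hi]
      simp only [e]
      rw [sum_ite_eq' univ a0, if_pos (mem_univ a0)]
  · intro i hi
    refine (hz.fair i (hA hi)).trans (sum_le_sum fun o _ => ?_)
    refine mul_le_mul_of_nonneg_left ?_ (Nat.cast_nonneg _)
    rw [if_pos hi]
    split_ifs with h1 h2
    · exact le_rfl
    · have : z i o = 0 := by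
        by_contra hne
        exact h1 ⟨i, hi, hne⟩
      rw [this]
      norm_num
    · have : z i o = 0 := by
        by_contra hne
        exact h1 ⟨i, hi, hne⟩
      rw [this]

end Pool.Agent.FairDivA
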