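import Pool.Agent.Lib_MP_42f051_lc_p.Cert
import Pool.Agent.Lib_MP_42f051_alg.Chain

/-!
# PROP-SharedObj(n, n - 2): solutions of the relaxed problem for a set of agents
-/

namespace Pool.Agent.FairDivA

open Pool.Agent.FairDiv Pool.Agent.FairDivS Pool.Agent.FairDivP Finset

variable {n m : ℕ}

/-- the objects outside `K` are divided among the agents of `Y`, and each agent of `Y` gets at least
the fair share -/
structure Sol (v : Fin n → Fin m → ℕ) (Y : Finset (Fin n)) (K : Finset (Fin m))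
    (z : Fin n → Fin m → ℝ) : Prop where
  nonneg : ∀ i o, 0 ≤ z i o
  out : ∀ i, i ∉ Y → ∀ o, z i o = 0
  col : ∀ o, ∑ i, z i o = if o ∈ K then 0 else 1
  fair : ∀ i ∈ Y, fs v i ≤ ∑ o, (v i o : ℝ) * z i o

/-- for some set `K` of `(n - |Y|) k` objects of `T` the agents of `Y` can be satisfied from the
objects outside `K` -/
def PY (v : Fin n → Fin m → ℕ) (T : Finset (Fin m)) (k : ℕ) (Y : Finset (Fin n)) : Prop :=
  ∃ K, K ⊆ T ∧ K.card + Y.card * k = n * k ∧ ∃ z, Sol v Y K z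

/-- the form of a solution of minimal support for a minimal set `Y` of agents: the shared objects are
the objects of `sh`, they are in `T`, their number is `|Y| - 1`, each of them has two owners -/
structure Shape (v : Fin n → Fin m → ℕ) (T : Finset (Fin m)) (k : ℕ) (Y : Finset (Fin n))
    (K : Finset (Fin m)) (z : Fin n → Fin m → ℝ) (sh : Finset (Fin m)) : Prop where
  sub : sh ⊆ T \ K
  card : sh.card + 1 = Y.card
  whole : ∀ o, o ∉ sh → ∀ i, z i o = 0 ∨ z i o = 1
  shared : ∀ o ∈ sh, ∃ a b, a ≠ b ∧ a ∈ Y ∧ b ∈ Y ∧ z a o ≠ 0 ∧ z b o ≠ 0 ∧ v a o ≠ 0 ∧ v b o ≠ 0 ∧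
    ∀ i, z i o ≠ 0 → i = a ∨ i = b
  few : ∀ a, (T.filter fun o => z a o = 1).card ≤ k - 1

end Pool.Agent.FairDivA
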