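import Pool.Agent.Lib_MP_42f051_lc_p.EdgesB
import Pool.Agent.Lib_MP_42f051_alg.SolDefs

/-!
# The shape of a solution of minimal support for a minimal set of agents
-/

namespace Pool.Agent.FairDivA

open Pool.Agent.FairDiv Pool.Agent.FairDivS Pool.Agent.FairDivP Finset

variable {n m : ℕ}

theorem sol_of_minSol {v : Fin n → Fin m → ℕ} {Y : Finset (Fin n)} {K : Finset (Fin m)}
    {z : Fin n → Fin m → ℝ} (h : MinSol v Y K z) : Sol v Y K z := by
  refine ⟨h.nonneg, fun i hi o => h.off i o hi, fun o => ?_, h.acc⟩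
  have h1 : ∑ i, z i o = ∑ i ∈ Y, z i o :=
    (sum_subset (subset_univ Y) fun i _ hi => h.off i o hi).symm
  rw [h1]
  by_cases ho : o ∈ K
  · rw [if_pos ho, sum_eq_zero fun i _ => h.offK i o ho]
  · rw [if_neg ho, h.col o ho]

theorem satSet_of_sol {v : Fin n → Fin m → ℕ} {Y : Finset (Fin n)} {K : Finset (Fin m)}
    {z : Fin n → Fin m → ℝ} (h : Sol v Y K z) : SatSet v Y K := by
  refine ⟨z, h.nonneg, fun o => ?_, h.fair⟩
  rw [← h.col o]
  exact sum_le_sum_of_subset_of_nonneg (subset_univ Y) fun i _ _ => h.nonneg i o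

/-- (5a) the shape of a minimal solution -/
theorem exists_shape {v : Fin n → Fin m → ℕ} {T : Finset (Fin m)} {k : ℕ} (hk : 1 ≤ k)
    (hT : T.card + 1 = n * k) {Y : Finset (Fin n)} (hY : PY v T k Y)
    (hmin : ∀ Y', PY v T k Y' → Y.card ≤ Y'.card) :
    ∃ K z sh, K ⊆ T ∧ K.card + Y.card * k = n * k ∧ Sol v Y K z ∧ Shape v T k Y K z sh := by
  classical
  obtain ⟨K, hKT, hKc, z0, hz0⟩ := hY
  have hYne : Y.Nonempty := by
    rw [nonempty_iff_ne_empty]
    rintro rfl
    have := card_le_card hKT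
    rw [card_empty, zero_mul, add_zero] at hKc
    omega
  have hYn : Y.card ≤ n := by simpa using card_le_univ Y
  have hKc' : K.card = (n - Y.card) * k := by
    rw [Nat.sub_mul]
    omega
  obtain ⟨z, hz⟩ := (satSet_of_sol hz0).exists_minSol hYne
  have htree : TreeSol v T k Y K z := by
    refine hz.treeSol hT hKT hKc' hYne fun L' hL' hL'Y K' hK'T hK'c hsat => ?_
    obtain ⟨z', hz'⟩ := hsat.exists_minSol hL'
    have hL'n : L'.card ≤ n := by simpa using card_le_univ L'
    have h1 : PY v T k L' := by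
      refine ⟨K', hK'T, ?_, z', sol_of_minSol hz'⟩
      rw [hK'c, ← add_mul, Nat.sub_add_cancel hL'n]
    exact absurd (hmin L' h1) (not_le.2 (card_lt_card hL'Y))
  refine ⟨K, z, univ.filter fun o => 2 ≤ (owners Y z o).card, hKT, hKc, sol_of_minSol hz, ?_⟩
  refine ⟨?_, htree.card_shared, ?_, ?_, ?_⟩
  · intro o ho
    exact htree.sharedT o (mem_filter.1 ho).2
  · intro o ho i
    have hc : (owners Y z o).card ≤ 1 := by
      by_contra hc
      exact ho (mem_filter.2 ⟨mem_univ _, by omega⟩)
    by_cases hoK : o ∈ K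
    · exact Or.inl (hz.offK i o hoK)
    · obtain ⟨j, hj, hj1⟩ := hz.eq_one hoK hc
      by_cases hij : i = j
      · rw [hij]; exact Or.inr hj1
      · exact Or.inl (hz.others_eq_zero hj hj1 hij)
  · intro o ho
    have hc2 : (owners Y z o).card = 2 := le_antisymm (htree.two o) (mem_filter.1 ho).2
    obtain ⟨a, b, hab, hown⟩ := card_eq_two.1 hc2
    have ha : a ∈ owners Y z o := by rw [hown]; simp
    have hb : b ∈ owners Y z o := by rw [hown]; simp
    obtain ⟨haY, hza⟩ := mem_owners.1 ha
    obtain ⟨hbY, hzb⟩ := mem_owners.1 hb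
    have hza1 : z a o ≠ 1 := fun h => hzb (hz.others_eq_zero haY h hab.symm)
    have hzb1 : z b o ≠ 1 := fun h => hza (hz.others_eq_zero hbY h hab)
    refine ⟨a, b, hab, haY, hbY, hza, hzb, (hz.pos a o hza hza1).ne', (hz.pos b o hzb hzb1).ne', ?_⟩
    intro i hi
    have hiY : i ∈ Y := by
      by_contra hiY
      exact hi (hz.off i o hiY)
    have h1 : i ∈ owners Y z o := mem_owners.2 ⟨hiY, hi⟩
    rw [hown] at h1
    simpa using h1
  · intro a
    by_cases ha : a ∈ Y
    · have := htree.whole a ha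
      omega
    · have : (T.filter fun o => z a o = 1) = ∅ := by
        rw [filter_eq_empty_iff]
        intro o _ h
        rw [hz.off a o ha] at h
        exact zero_ne_one h
      rw [this, card_empty]
      exact Nat.zero_le _

end Pool.Agent.FairDivA
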