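import Pool.Agent.Lib_MP_033923_lc.BinNat
import Pool.Agent.Lib_MP_42fe4d_lc.CL.Sim

/-!
# From the calculus of polynomial time functions to the prelude

A function from lists of natural numbers to `Bool` is computed in polynomial time (by a `TM2` machine,
with the binary encoding of the prelude) if it is given by a function in `FP` of the list of the binary
numbers.
-/

namespace Pool.Agent.FairDivP

open Pool.Agent.PartSep Pool.Agent.PartSep.TM Pool.Agent.PartSep.TM.Rep Pool.Agent.PartSep.CL
open N487b59b3

set_option synthInstance.maxSize 2000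

/-- the list of binary numbers of a string which codes a list of natural numbers -/
def wrapDec (s : List Sym) : List BN := (splitB s).map (fun w => (⟨valS w⟩ : BN))

theorem fp_wrapDec : FP wrapDec :=
  FP.mapE (FP.splitB FP.id) (g := fun y : List Sym × List Sym => (⟨valS y.2⟩ : BN))
    (FP.ofBits FP.snd)

theorem wrapDec_code (y : List ℕ) : wrapDec ((bitEncode y).map bs) = y.map (fun a => (⟨a⟩ : BN)) := by
  unfold wrapDec
  have h : (bitEncode y).map bs = (y.map bcode).flatMap del := by
    rw [bitEncode_list, List.flatMap_map]
    rfl
  rw [h, splitB_flatMap, List.map_map]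
  apply List.map_congr_left
  intro a _
  simp only [Function.comp_apply, valS_bcode]

theorem fp_wrapBs {E : Type} [Rep E] {b : E → Bool} (hb : FP b) : FP (fun x => [bs (b x)]) :=
  (FP.ite hb (FP.const [Sym.i]) (FP.const [Sym.o])).congr (fun x => by cases b x <;> rfl)

/-- a decision function in `FP` gives a decision function computed in polynomial time -/
theorem isPolyTime_of_BN {f : List ℕ → Bool} {g : List BN → Bool} (hg : FP g)
    (h : ∀ y, g (y.map (fun a => (⟨a⟩ : BN))) = f y) : N68a2faeb.IsPolyTime f := by
  refine FP.toTM2 (αΓ := Bool) (βΓ := Bool) bs sb bs sb_bs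
    (f := fun s => [bs (g (wrapDec s))]) (fp_wrapBs (FP.comp hg fp_wrapDec)) (fun x => ?_)
  change [bs (g (wrapDec ((bitEncode x).map bs)))] = [bs (f x)]
  rw [wrapDec_code, h]

end Pool.Agent.FairDivP
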